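import Mathlib
import Pool.Agent.W844.VG.Defs

/-!
# Project GP (S19171, MP_18bc13_pr): greedy lattice paths with arbitrary negative tails

`w : V d → ℝ` is always the environment (`V d = Fin d → ℤ`), paths are lists of distinct vertices.
`law ν d` is the law of an i.i.d. environment with one-point law `ν`.
-/

set_option autoImplicit false

open Finset MeasureTheory ProbabilityTheory Filter Topology
open scoped ENNReal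

namespace Pool.Agent.W844.GP

open Pool.Agent.W844.VG (V stp nm)

variable {d : ℕ}

/-! ### paths -/

/-- lattice neighbours -/
def adj (x y : V d) : Prop := ∑ j, |y j - x j| = 1

/-- self-avoiding lattice path, given by the list of its vertices -/
def IsP (l : List (V d)) : Prop := l.IsChain adj ∧ l.Nodup

/-- total weight of a list of vertices -/
def wt (w : V d → ℝ) (l : List (V d)) : ℝ := (l.map w).sum

/-- the point `m e_i` -/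
def pt (i : Fin d) (m : ℤ) : V d := Pi.single i m

/-- the cube `a + [0, R)^d` -/
def Cube (a : V d) (R : ℕ) : Set (V d) := {z | ∀ j, a j ≤ z j ∧ z j < a j + R}

/-- `l` is a weak bridge in direction `i` from `x` to `y` (`l` contains `x` and `y`) -/
def WB (i : Fin d) (l : List (V d)) (x y : V d) : Prop :=
  IsP l ∧ l.head? = some x ∧ l.getLast? = some y ∧ ∀ z ∈ l, x i ≤ z i ∧ z i ≤ y i

/-- `x :: l` is a strict bridge in direction `i` from `x` to `y` (`l` does not contain `x`) -/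
def SB (i : Fin d) (l : List (V d)) (x y : V d) : Prop :=
  IsP (x :: l) ∧ (x :: l).getLast? = some y ∧ ∀ z ∈ l, x i < z i ∧ z i ≤ y i

/-- some `n`-step path from the origin has weight at least `a` (the origin is not counted) -/
def Lo (w : V d → ℝ) (n : ℕ) (a : ℝ) : Prop :=
  ∃ l : List (V d), l.length = n ∧ IsP (0 :: l) ∧ a ≤ wt w l

/-- some path in the cube `a + [0, R)^d` has weight at least `c` -/
def Big (w : V d → ℝ) (a : V d) (R : ℕ) (c : ℝ) : Prop :=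
  ∃ l : List (V d), IsP l ∧ (∀ z ∈ l, z ∈ Cube a R) ∧ c ≤ wt w l

/-- some weak bridge of span `≥ s` in `[0, R)^d` has positive weight -/
def Exc (w : V d → ℝ) (i : Fin d) (R s : ℕ) : Prop :=
  ∃ (l : List (V d)) (x y : V d), WB i l x y ∧ (∀ z ∈ l, z ∈ Cube 0 R) ∧ x i + s ≤ y i ∧ 0 < wt w l

/-- some weak bridge in `[0, C t)^d` with `t ≤ length < 2 t` has weight `≥ 0` -/
def EE (w : V d → ℝ) (i : Fin d) (C t : ℕ) : Prop :=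
  ∃ (l : List (V d)) (x y : V d), WB i l x y ∧ (∀ z ∈ l, z ∈ Cube 0 (C * t)) ∧ t ≤ l.length ∧
    l.length < 2 * t ∧ 0 ≤ wt w l

/-- some strict bridge from `0` to `R e_i` of length `≤ L R` has weight `≥ c` -/
def YY (w : V d → ℝ) (i : Fin d) (L R : ℕ) (c : ℝ) : Prop :=
  ∃ l : List (V d), SB i l 0 (pt i R) ∧ l.length ≤ L * R ∧ c ≤ wt w l

/-- the best weight of the strict bridges in `YY`, truncated to `[-B h, 0]` -/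
noncomputable def VV (i : Fin d) (L : ℕ) (B : ℝ) (h : ℕ) (w : V d → ℝ) : ℝ :=
  sSup {c : ℝ | c ≤ 0 ∧ (c ≤ -(B * h) ∨ YY w i L h c)}

/-- law of the i.i.d. environment -/
noncomputable def law (ν : Measure ℝ) (d : ℕ) : Measure (V d → ℝ) :=
  Measure.infinitePi fun _ : V d => ν

noncomputable def aa (ν : Measure ℝ) (i : Fin d) (L : ℕ) (B : ℝ) (h : ℕ) : ℝ :=
  (∫ w, VV i L B h w ∂law ν d) / h

/-- shifted environment -/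
def sh (a : V d) (w : V d → ℝ) : V d → ℝ := fun x => w (x + a)

/-! ### closed clusters -/

/-- closed vertices -/
def Cl (K : ℝ) (w : V d → ℝ) : Set (V d) := {x | w x < -K}

/-- `D` and everything reached from `D` by jumps of sup-norm at most `2` inside `Z` -/
def Hull (Z D : Set (V d)) : Set (V d) :=
  {y | ∃ x ∈ D, Relation.ReflTransGen (fun a b => b ∈ Z ∧ nm (b - a) ≤ 2) x y}

/-- vertices within distance `r` of `A` -/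
def Nb (A : Set (V d)) (r : ℕ) : Set (V d) := {x | ∃ y ∈ A, nm (x - y) ≤ r}

/-- the closed cluster of `x` reaches distance `k` -/
def Far (K : ℝ) (w : V d → ℝ) (x : V d) (k : ℕ) : Prop :=
  ∃ y ∈ Hull (Cl K w) {x}, k ≤ nm (y - x)

open scoped Classical in
/-- a power of the size of the closed cluster of `x` -/
noncomputable def GG (p : ℕ) (K : ℝ) (w : V d → ℝ) (x : V d) : ℝ≥0∞ :=
  ∑' k : ℕ, if Far K w x k then ((2 * k + 7) ^ p : ℝ≥0∞) else 0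

open scoped Classical in
/-- the cost of the block `0 .. h` -/
noncomputable def WW (i : Fin d) (L : ℕ) (B K C0 : ℝ) (h : ℕ) (w : V d → ℝ) : ℝ≥0∞ :=
  ENNReal.ofReal (-(VV i L B h w)) +
    if YY w i L h (-(B * h)) then 0 else
      ENNReal.ofReal C0 * (8 * h + ∑ m ∈ Icc 1 h, GG d K w (pt i m))

/-- open connection strictly between the heights of `x` and `y`, with at most `n` inner vertices -/
def Con (K : ℝ) (w : V d → ℝ) (i : Fin d) (n : ℕ) (x y : V d) : Prop :=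
  x i < y i ∧ ∃ l : List (V d), IsP (x :: (l ++ [y])) ∧ l.length ≤ n ∧
    ∀ z ∈ l, x i < z i ∧ z i < y i ∧ -K ≤ w z

noncomputable def q0 (d : ℕ) : ℝ≥0∞ := ENNReal.ofReal (Real.exp (-8) / 5 ^ d)

/-! ### generic statements -/

/-- functions of disjoint sets of coordinates are independent -/
def S_IND : Prop := ∀ (d : ℕ) (ν : Measure ℝ) [IsProbabilityMeasure ν] (α β : Type)
  [MeasurableSpace α] [MeasurableSpace β] (f : (V d → ℝ) → α) (g : (V d → ℝ) → β)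
  (S S' : Set (V d)), Measurable f → Measurable g → DependsOn f S → DependsOn g S' →
  Disjoint S S' → IndepFun f g (law ν d)

/-- finitely many events depending on disjoint sets of coordinates are independent -/
def S_INDK : Prop := ∀ (d : ℕ) (ν : Measure ℝ) [IsProbabilityMeasure ν] (ι : Type) (s : Finset ι)
  (E : ι → Set (V d → ℝ)) (S : ι → Set (V d)), (∀ k ∈ s, MeasurableSet (E k)) →
  (∀ k ∈ s, DependsOn (fun w => w ∈ E k) (S k)) →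
  (∀ k ∈ s, ∀ k' ∈ s, k ≠ k' → Disjoint (S k) (S k')) →
  law ν d (⋂ k ∈ s, E k) = ∏ k ∈ s, law ν d (E k)

/-- measurability -/
def S_MEAS : Prop := ∀ (d : ℕ),
  (∀ (p : List (V d) → Prop) (c : ℝ), MeasurableSet {w : V d → ℝ | ∃ l, p l ∧ c ≤ wt w l}) ∧
  (∀ (p : List (V d) → Prop) (c : ℝ), MeasurableSet {w : V d → ℝ | ∃ l, p l ∧ c < wt w l}) ∧
  (∀ (K : ℝ) (x : V d) (k : ℕ), MeasurableSet {w : V d → ℝ | Far K w x k}) ∧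
  (∀ (K : ℝ) (i : Fin d) (n : ℕ) (x y : V d), MeasurableSet {w : V d → ℝ | Con K w i n x y}) ∧
  (∀ (i : Fin d) (L R : ℕ) (c : ℝ), MeasurableSet {w : V d → ℝ | YY w i L R c}) ∧
  (∀ (i : Fin d) (L : ℕ) (B : ℝ) (h : ℕ), Measurable (VV (d := d) i L B h)) ∧
  (∀ (p : ℕ) (K : ℝ) (x : V d), Measurable fun w : V d → ℝ => GG p K w x)

/-! ### upper bound -/

/-- BK inequality for sums over sets from given families -/
def S_BK : Prop := ∀ (d : ℕ) (ν : Measure ℝ) [IsProbabilityMeasure ν] (k : ℕ)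
  (F : Fin k → Finset (Finset (V d))) (a : Fin k → ℝ),
  law ν d {w | ∃ f : Fin k → Finset (V d), (∀ j, f j ∈ F j) ∧
    (∀ j j', j ≠ j' → Disjoint (f j) (f j')) ∧ ∀ j, a j ≤ ∑ x ∈ f j, w x} ≤
  ∏ j, law ν d {w | ∃ f ∈ F j, a j ≤ ∑ x ∈ f, w x}

/-- multi-directional Hammersley-Welsh decomposition -/
def S_D : Prop := ∀ (d : ℕ) (w : V d → ℝ) (s : ℕ), 0 < s → ∀ l : List (V d), IsP l →
  (∀ (i : Fin d) (l' : List (V d)) (x y : V d), (l' <:+: l ∨ l'.reverse <:+: l) → WB i l' x y →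
    x i + s ≤ y i → wt w l' ≤ 0) →
  ∀ c : ℝ, 2 ^ d * c ≤ wt w l →
    ∃ l', l' <:+: l ∧ (∀ z ∈ l', ∀ z' ∈ l', ∀ j, z j - z' j < s) ∧ c ≤ wt w l'

def S_REC : Prop := ∀ (d : ℕ) (ν : Measure ℝ) [IsProbabilityMeasure ν] (K R : ℕ), 1 ≤ K → 1 ≤ R →
  ∀ c : ℝ, law ν d {w | Big w 0 (2 * K * R) (2 ^ d * c)} ≤
    (∑ i : Fin d, law ν d {w | Exc w i (2 * K * R) R}) +
      (2 * K) ^ d * law ν d {w | Big w 0 (2 * R) c}

def S_SPLIT : Prop := ∀ (d : ℕ) (ν : Measure ℝ) [IsProbabilityMeasure ν] (T : ℝ), 0 ≤ T →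
  ν (Set.Ioi T) = 0 → ∀ (R : ℕ) (c : ℝ),
    law ν d {w | Big w 0 R (2 * c + T)} ≤ law ν d {w | Big w 0 R c} ^ 2

def S_U2 : Prop := ∀ (d : ℕ) (ν : Measure ℝ) [IsProbabilityMeasure ν] (T : ℝ), 0 ≤ T →
  ν (Set.Ioi T) = 0 →
  (∀ (i : Fin d) (K : ℕ), Tendsto (fun R : ℕ => law ν d {w | Exc w i (2 * K * R) R}) atTop (𝓝 0)) →
  ∀ δ ε : ℝ, 0 < δ → 0 < ε → ∀ R0 : ℕ, ∃ R, R0 ≤ R ∧
    law ν d {w | Big w 0 (3 * R) (ε * R)} ≤ ENNReal.ofReal δ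

def S_U3 : Prop := ∀ (d : ℕ) (ν : Measure ℝ) [IsProbabilityMeasure ν] (T : ℝ), 0 ≤ T →
  ν (Set.Ioi T) = 0 →
  (∀ δ ε : ℝ, 0 < δ → 0 < ε → ∀ R0 : ℕ, ∃ R, R0 ≤ R ∧
    law ν d {w | Big w 0 (3 * R) (ε * R)} ≤ ENNReal.ofReal δ) →
  ∀ ε : ℝ, 0 < ε → ∀ᵐ w ∂law ν d, ∀ᶠ n : ℕ in atTop, ¬ Lo w n (ε * n)

/-- packing -/
def S_PACK : Prop := ∀ (d : ℕ) (ν : Measure ℝ) [IsProbabilityMeasure ν] (i : Fin d),
  (∀ C : ℕ, Tendsto (fun t : ℕ => law ν d {w | EE w i C t}) atTop (𝓝 0)) →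
  ∀ K : ℕ, Tendsto (fun R : ℕ => law ν d {w | Exc w i (2 * K * R) R}) atTop (𝓝 0)

/-! ### closed clusters and surgery -/

def S_TAIL : Prop := ∀ (d : ℕ) (ν : Measure ℝ) [IsProbabilityMeasure ν] (K : ℝ),
  ν (Set.Iio (-K)) ≤ q0 d → ∀ (x : V d) (k : ℕ),
    law ν d {w | Far K w x k} ≤ ENNReal.ofReal (Real.exp (-(4 * k))) ∧
    law ν d {w | x ∈ Cl K w ∧ Far K w x k} ≤ ENNReal.ofReal (Real.exp (-(4 * k) - 8))

/-- law of large numbers with a rate for almost local functions -/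
def S_SUM : Prop := ∀ (d : ℕ) (i : Fin d) (ν : Measure ℝ) [IsProbabilityMeasure ν] (h : ℕ),
  1 ≤ h → ∀ (W : (V d → ℝ) → ℝ≥0∞) (Wr : ℕ → (V d → ℝ) → ℝ≥0∞) (C a : ℝ),
  Measurable W → (∀ r, Measurable (Wr r)) →
  (∀ r : ℕ, DependsOn (Wr r) {x | -(r : ℤ) ≤ x i ∧ x i ≤ h + r}) → 0 ≤ C → 0 ≤ a →
  (∀ r : ℕ, law ν d {w | W w ≠ Wr r w} ≤ ENNReal.ofReal (C * Real.exp (-r))) →
  (∀ r, ∫⁻ w, (Wr r w) ^ 2 ∂law ν d ≤ ENNReal.ofReal C) →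
  (∀ r, ∫⁻ w, Wr r w ∂law ν d ≤ ENNReal.ofReal a) →
  ∀ ε : ℝ, 0 < ε → ∃ C' : ℝ, ∀ m : ℕ, 1 ≤ m →
    law ν d {w | ENNReal.ofReal ((a + ε) * m) ≤ ∑ j ∈ range m, W (sh (pt i (j * h)) w)} ≤
      ENNReal.ofReal (C' / Real.sqrt m)

/-- surgery: bypass the finite set `A` -/
def S_SUR : Prop := ∀ (d : ℕ) (i : Fin d), 2 ≤ d → ∀ (A : Set (V d)), A.Finite →
  ∀ (u v : V d) (l : List (V d)), (u :: l).IsChain adj → (u :: l).getLast? = some v →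
  (∀ a ∈ A, u i < a i ∧ a i < v i) →
  ∃ l' : List (V d), IsP (u :: l') ∧ (u :: l').getLast? = some v ∧
    ∀ z ∈ u :: l', z ∉ A ∧ (z ∈ u :: l ∨ z ∈ Nb A 2)

/-- surgery on a strict bridge -/
def S_RUN : Prop := ∀ (d : ℕ) (i : Fin d), 2 ≤ d → ∀ (w : V d → ℝ) (K Λ : ℝ) (A : Set (V d))
  (x y : V d) (l : List (V d)) (N : ℕ), 0 ≤ K → A.Finite → SB i l x y →
  (∀ a ∈ A, x i + 2 < a i ∧ a i + 2 < y i) →
  (∀ z, z ∉ A → z ∈ Nb A 2 → -K ≤ w z) →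
  (∀ S : Finset (V d), (∀ z ∈ S, z ∈ l ∧ z ∉ A) → -Λ ≤ ∑ z ∈ S, w z) →
  (∀ S : Finset (V d), (∀ z ∈ S, z ∈ Nb A 2) → S.card ≤ N) →
  ∃ l' : List (V d), SB i l' x y ∧ l'.length ≤ l.length + N ∧
    ∀ l'', l'' <+: l' → -Λ - K * N ≤ wt w l''

/-- the chain lemma (deterministic) -/
def S_CH : Prop := ∀ (d : ℕ) (i : Fin d), 2 ≤ d → ∀ (w : V d → ℝ) (T K B : ℝ) (L h J : ℕ)
  (t : ℕ → ℕ) (bad : Finset ℕ) (c : ℕ → ℝ) (ρ : ℕ → ℕ),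
  0 ≤ T → 0 ≤ K → 0 ≤ B → 10 ≤ h → 1 ≤ L → 1 ≤ J → (∀ x, w x ≤ T) → t 0 = 0 →
  (∀ j < J, t j + h ≤ t (j + 1) ∧ t (j + 1) ≤ t j + 2 * h) → (∀ j, c j ≤ 0) →
  (∀ j < J, j ∉ bad → -(B * (t (j + 1) - t j)) ≤ c j ∧
    ∃ l, SB i l (pt i (t j)) (pt i (t (j + 1))) ∧ l.length ≤ L * (t (j + 1) - t j) ∧
      c j ≤ wt w l) →
  (∀ j < J, j ∈ bad → ∀ m : ℕ, t j < m → m ≤ t (j + 1) → pt i m ∈ Cl K w →
    ∀ y ∈ Hull (Cl K w) {pt i m}, nm (y - pt i m) ≤ ρ m ∧ 2 < y i ∧ y i + 2 < t J) →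
  ∀ Q : ℕ, Q = ∑ j ∈ bad.filter (· < J), (8 * h + ∑ m ∈ Ioc (t j) (t (j + 1)), (2 * ρ m + 7) ^ d) →
  ∃ l : List (V d), SB i l 0 (pt i (t J)) ∧ l.length ≤ L * t J + Q ∧
    ∀ l', l' <+: l →
      (∑ j ∈ range J, c j) - (B + T * L + 2 * K + 2) * (8 * h + Q) ≤ wt w l'

/-! ### lower bound -/

/-- straight lines give bridges of linear cost -/
def S_T3 : Prop := ∀ (d : ℕ) (i : Fin d), 2 ≤ d → ∀ (ν : Measure ℝ) [IsProbabilityMeasure ν],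
  ∃ (B : ℝ) (L : ℕ), 0 ≤ B ∧ 1 ≤ L ∧
    Tendsto (fun h : ℕ => law ν d {w | ¬ YY w i L h (-(B * h))}) atTop (𝓝 0)

def S_WW : Prop := ∀ (d : ℕ) (i : Fin d) (ν : Measure ℝ) [IsProbabilityMeasure ν] (K B : ℝ) (L : ℕ),
  ν (Set.Iio (-K)) ≤ q0 d → 0 ≤ B →
  Tendsto (fun h : ℕ => law ν d {w | ¬ YY w i L h (-(B * h))}) atTop (𝓝 0) →
  ∀ C0 ε : ℝ, 0 ≤ C0 → 0 < ε → ∃ h0 : ℕ, ∀ h, h0 ≤ h → ∃ C' : ℝ, ∀ m : ℕ, 1 ≤ m →
    law ν d {w | ENNReal.ofReal ((-(aa ν i L B h) + ε) * h * m) ≤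
        ∑ j ∈ range m, WW i L B K C0 h (sh (pt i (j * h)) w)} ≤
      ENNReal.ofReal (C' / Real.sqrt m)

/-- standing assumptions -/
def Hyp (ν : Measure ℝ) (i : Fin d) (T B : ℝ) (L : ℕ) : Prop :=
  2 ≤ d ∧ 0 ≤ T ∧ ν (Set.Ioi T) = 0 ∧ 0 ≤ B ∧ 1 ≤ L ∧
    Tendsto (fun h : ℕ => law ν d {w | ¬ YY w i L h (-(B * h))}) atTop (𝓝 0)

def S_CLB : Prop := ∀ (d : ℕ) (i : Fin d) (ν : Measure ℝ) [IsProbabilityMeasure ν] (T B : ℝ)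
  (L : ℕ), Hyp ν i T B L → ∀ ε η : ℝ, 0 < ε → 0 < η → ∃ h0 : ℕ, ∀ h, h0 ≤ h → ∃ R0 : ℕ,
    ∀ R, R0 ≤ R → law ν d {w | ¬ YY w i (2 * L) R ((aa ν i L B h - ε) * R)} ≤ ENNReal.ofReal η

def S_CLBI : Prop := ∀ (d : ℕ) (i : Fin d) (ν : Measure ℝ) [IsProbabilityMeasure ν] (T B : ℝ)
  (L : ℕ), Hyp ν i T B L → ∀ ε η : ℝ, 0 < ε → 0 < η → ∃ h0 : ℕ, ∀ h, h0 ≤ h →
    law ν d {w | ¬ ∀ᶠ n : ℕ in atTop, Lo w n (2 * (aa ν i L B h - ε) * n)} ≤ ENNReal.ofReal η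

def S_LD : Prop := ∀ (d : ℕ) (i : Fin d) (ν : Measure ℝ) [IsProbabilityMeasure ν] (T B : ℝ)
  (L : ℕ), Hyp ν i T B L → ∀ (L0 : ℕ) (δ : ℝ), 0 < δ →
  (∃ᶠ R : ℕ in atTop, ENNReal.ofReal δ ≤ law ν d {w | YY w i L0 R 0}) →
  ∀ ε : ℝ, 0 < ε → ∃ L', L ≤ L' ∧ ∃ᶠ h : ℕ in atTop, -ε ≤ aa ν i L' B h

/-! ### closing up exceptional bridges -/

def S_CON : Prop := ∀ (d : ℕ) (i : Fin d), 2 ≤ d → ∃ C g0 : ℕ, ∀ (ν : Measure ℝ)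
  [IsProbabilityMeasure ν] (K : ℝ), ν (Set.Iio (-K)) ≤ q0 d → ∀ g, g0 ≤ g → ∀ x y : V d,
  x i + g ≤ y i → nm (y - x) ≤ 16 * g → 2⁻¹ ≤ law ν d {w | Con K w i (C * g) x y}

/-- selection of a lower and an upper structure and a connection between them -/
def S_SEL : Prop := ∀ (d : ℕ) (i : Fin d) (ν : Measure ℝ) [IsProbabilityMeasure ν]
  (P Q : Finset (V d)) (D U : V d → Set (V d → ℝ)) (N : V d → V d → Set (V d → ℝ)),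
  (∀ y ∈ P, MeasurableSet (D y) ∧ DependsOn (fun w => w ∈ D y) {z | z i ≤ y i}) →
  (∀ x ∈ Q, MeasurableSet (U x) ∧ DependsOn (fun w => w ∈ U x) {z | x i ≤ z i}) →
  (∀ y ∈ P, ∀ x ∈ Q, y i < x i ∧ MeasurableSet (N y x) ∧
    DependsOn (fun w => w ∈ N y x) {z | y i < z i ∧ z i < x i} ∧ 2⁻¹ ≤ law ν d (N y x)) →
  2⁻¹ * law ν d (⋃ y ∈ P, D y) * law ν d (⋃ x ∈ Q, U x) ≤
    law ν d (⋃ y ∈ P, ⋃ x ∈ Q, D y ∩ N y x ∩ U x)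

def S_GLUE : Prop := ∀ (d : ℕ) (i : Fin d) (w : V d → ℝ) (K : ℝ) (n : ℕ)
  (o x y x' y' z : V d) (l₁ l₂ : List (V d)), 0 ≤ K → Con K w i n o x → WB i l₁ x y →
  Con K w i n y x' → WB i l₂ x' y' → Con K w i n y' z → -K ≤ w z →
  ∃ l, SB i l o z ∧ l.length ≤ 3 * n + 1 + l₁.length + l₂.length ∧
    wt w l₁ + wt w l₂ - K * (3 * n + 1) ≤ wt w l

def S_L1 : Prop := ∀ (d : ℕ) (i : Fin d), 2 ≤ d → ∀ (ν : Measure ℝ) [IsProbabilityMeasure ν]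
  (κ δ : ℝ) (C : ℕ), 0 < κ → 0 < δ →
  (∃ᶠ t : ℕ in atTop, ENNReal.ofReal δ ≤ law ν d {w | EE w i C t}) →
  ∃ (L0 : ℕ) (δ' : ℝ), 0 < δ' ∧ ∃ᶠ R : ℕ in atTop,
    ENNReal.ofReal δ' ≤ law ν d {w | YY (fun x => w x + κ) i L0 R 0}

/-! ### positive part -/

def S_G : Prop := ∀ d : ℕ, 1 ≤ d → ∃ C : ℝ, 0 < C ∧ ∀ (ν : Measure ℝ) [IsProbabilityMeasure ν]
  (s : ℝ) (n m : ℕ), 1 ≤ n → C * (n * ν.real (Set.Ioi s) ^ ((1 : ℝ) / d) + 1) ≤ m →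
  law ν d {w | ∃ l : List (V d), l.length = n ∧ IsP (0 :: l) ∧
    ∃ S : Finset (V d), S.card = m ∧ ∀ z ∈ S, z ∈ l ∧ s < w z} ≤ ENNReal.ofReal (Real.exp (-m))

def S_POS : Prop := ∀ d : ℕ, 1 ≤ d → ∀ (ν : Measure ℝ) [IsProbabilityMeasure ν] (α : ℝ), 0 < α →
  ∫⁻ x, ENNReal.ofReal ((max x 0) ^ d * (max (Real.log (max x 0)) 0) ^ ((d : ℝ) + α)) ∂ν < ⊤ →
  ∀ ε : ℝ, 0 < ε → ∃ T0 : ℝ, ∀ T, T0 ≤ T → ∀ᵐ w ∂law ν d, ∀ᶠ n : ℕ in atTop,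
    ∀ l : List (V d), l.length = n → IsP (0 :: l) → wt (fun x => max (w x - T) 0) l ≤ ε * n

/-! ### assembly -/

def S_U : Prop := ∀ (d : ℕ) (ν : Measure ℝ) [IsProbabilityMeasure ν] (T : ℝ), 0 ≤ T →
  ν (Set.Ioi T) = 0 →
  (∀ (i : Fin d) (C : ℕ), Tendsto (fun t : ℕ => law ν d {w | EE w i C t}) atTop (𝓝 0)) →
  ∀ ε : ℝ, 0 < ε → ∀ᵐ w ∂law ν d, ∀ᶠ n : ℕ in atTop, ¬ Lo w n (ε * n)

def S_L : Prop := ∀ (d : ℕ) (i : Fin d), 2 ≤ d → ∀ (ν : Measure ℝ) [IsProbabilityMeasure ν]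
  (T δ : ℝ) (C : ℕ), 0 ≤ T → ν (Set.Ioi T) = 0 → 0 < δ →
  (∃ᶠ t : ℕ in atTop, ENNReal.ofReal δ ≤ law ν d {w | EE w i C t}) →
  ∀ κ : ℝ, 0 < κ → ∀ᵐ w ∂law ν d, ∀ᶠ n : ℕ in atTop, Lo w n (-(κ * n))

/-- a linear lower bound -/
def S_FIN1 : Prop := ∀ (d : ℕ), 2 ≤ d → ∀ (ν : Measure ℝ) [IsProbabilityMeasure ν] (T : ℝ),
  ν (Set.Ioi T) = 0 → ∃ b : ℝ, ∀ᵐ w ∂law ν d, ∀ᶠ n : ℕ in atTop, Lo w n (b * n)

/-- convergence for weights bounded above -/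
def S_E1 : Prop := ∀ (d : ℕ), 2 ≤ d → ∀ (ν : Measure ℝ) [IsProbabilityMeasure ν] (T : ℝ),
  ν (Set.Ioi T) = 0 → ∃ M : ℝ, ∀ᵐ w ∂law ν d,
    (∀ a, a < M → ∀ᶠ n : ℕ in atTop, Lo w n (a * n)) ∧
    (∀ a, M < a → ∀ᶠ n : ℕ in atTop, ¬ Lo w n (a * n))

/-- convergence -/
def S_E2 : Prop := ∀ (d : ℕ), 2 ≤ d → ∀ (ν : Measure ℝ) [IsProbabilityMeasure ν] (α : ℝ), 0 < α →
  ∫⁻ x, ENNReal.ofReal ((max x 0) ^ d * (max (Real.log (max x 0)) 0) ^ ((d : ℝ) + α)) ∂ν < ⊤ →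
  ∃ M : ℝ, ∀ᵐ w ∂law ν d,
    (∀ a, a < M → ∀ᶠ n : ℕ in atTop, Lo w n (a * n)) ∧
    (∀ a, M < a → ∀ᶠ n : ℕ in atTop, ¬ Lo w n (a * n))

end Pool.Agent.W844.GP
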