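import Pool.Agent.W844.GP.Basic
import Pool.Agent.W3.GP.VVf

/-!
# Project GP: the lower bound for all large path lengths
-/

set_option autoImplicit false

open Finset MeasureTheory ProbabilityTheory Filter Topology
open scoped ENNReal

namespace Pool.Agent.W366.GP

open Pool.Agent.W844.VG Pool.Agent.W844.GP

variable {d : ℕ}

lemma sum_reindex (i : Fin d) (K : ℝ) (h j : ℕ) (w : V d → ℝ) :
    ∑ m ∈ Icc 1 h, GG d K (sh (pt i ((j : ℤ) * (h : ℤ))) w) (pt i (m : ℤ)) =
      ∑ m ∈ Ioc (j * h) ((j + 1) * h), GG d K w (pt i (m : ℤ)) := by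
  refine Finset.sum_nbij' (fun m => m + j * h) (fun m => m - j * h) ?_ ?_ ?_ ?_ ?_
  · intro m hm
    rw [Finset.mem_Icc] at hm
    rw [Finset.mem_Ioc]
    constructor
    · omega
    · have : (j + 1) * h = j * h + h := by ring
      omega
  · intro m hm
    rw [Finset.mem_Ioc] at hm
    rw [Finset.mem_Icc]
    have : (j + 1) * h = j * h + h := by ring
    constructor
    · omega
    · omega
  · intro m hm
    simp
  · intro m hm
    rw [Finset.mem_Ioc] at hm
    omega
  · intro m hm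
    rw [gg_sh, ← pt_add]
    congr 2

lemma toreal (x C S : ℝ) (Q : ℕ) (hx : 0 ≤ x) (hC : 0 ≤ C)
    (h : ENNReal.ofReal x + ENNReal.ofReal C * (Q : ℝ≥0∞) < ENNReal.ofReal S) :
    x + C * Q < S := by
  have hQ : (0 : ℝ) ≤ C * Q := mul_nonneg hC (Nat.cast_nonneg Q)
  have h2 : ENNReal.ofReal (x + C * Q) < ENNReal.ofReal S := by
    rw [ENNReal.ofReal_add hx hQ, ENNReal.ofReal_mul hC, ENNReal.ofReal_natCast]
    exact h
  exact (ENNReal.ofReal_lt_ofReal_iff_of_nonneg (add_nonneg hx hQ)).1 h2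

/-- the deterministic part -/
theorem det (hch : S_CH) (i : Fin d) (hd : 2 ≤ d) (w : V d → ℝ) (T K B : ℝ) (L h J : ℕ)
    (hT : 0 ≤ T) (hK : 0 ≤ K) (hB : 0 ≤ B) (hh : 10 ≤ h) (hL : 1 ≤ L)
    (hw : ∀ x, w x ≤ T) (h0 : YY w i L h (-(B * h)))
    (hfar : ∀ m : ℕ, h < m → pt i (m : ℤ) ∈ Cl K w → ¬ Far K w (pt i (m : ℤ)) (m - 3))
    (S : ℝ) (hS : ∑ j ∈ range J, WW i L B K (B + T * L + 2 * K + 2) h
      (sh (pt i (j * h)) w) < ENNReal.ofReal S)
    (n : ℕ) (hn : n ≤ J * h) :
    Lo w n (-S - 8 * (B + T * L + 2 * K + 2) * h) := by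
  classical
  set C1 : ℝ := B + T * L + 2 * K + 2 with hC1
  have hC1pos : 0 < C1 := by positivity
  -- the radii
  have hρ0 : ∀ m : ℕ, ∃ r : ℕ, GG d K w (pt i (m : ℤ)) ≠ ⊤ →
      (∀ y ∈ Hull (Cl K w) {pt i (m : ℤ)}, nm (y - pt i (m : ℤ)) ≤ r) ∧
        (((2 * r + 7) ^ d : ℕ) : ℝ≥0∞) ≤ GG d K w (pt i (m : ℤ)) := by
    intro m
    by_cases hm : GG d K w (pt i (m : ℤ)) = ⊤
    · exact ⟨0, fun h => absurd hm h⟩
    · obtain ⟨r, _, h2, h3⟩ := exists_rho hm
      exact ⟨r, fun _ => ⟨h2, h3⟩⟩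
  choose ρ hρ using hρ0
  set a : ℕ → V d := fun j => pt i ((j : ℤ) * (h : ℤ)) with ha
  set bad : Finset ℕ := (range J).filter (fun j => ¬ YY (sh (a j) w) i L h (-(B * h))) with hbad
  set c : ℕ → ℝ := fun j => if j < J then VV i L B h (sh (a j) w) else 0 with hc
  have hcle : ∀ j, c j ≤ 0 := by
    intro j
    simp only [hc]
    split_ifs
    · exact (Pool.Agent.W3.GP.vv d i L B hB h _).2.1
    · exact le_rfl
  have hWW : ∀ j ∈ range J, WW i L B K C1 h (sh (a j) w) ≠ ⊤ := fun j hj =>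
    ((Finset.single_le_sum (f := fun j : ℕ => WW i L B K C1 h (sh (a j) w))
      (fun _ _ => bot_le) hj).trans_lt (hS.trans ENNReal.ofReal_lt_top)).ne
  have hC1ne : ENNReal.ofReal C1 ≠ 0 := by
    rw [Ne, ENNReal.ofReal_eq_zero]; exact not_le.mpr hC1pos
  -- one block
  have hbadW : ∀ j ∈ bad, WW i L B K C1 h (sh (a j) w) = ENNReal.ofReal (-(c j)) +
      ENNReal.ofReal C1 * (8 * h + ∑ m ∈ Ioc (j * h) ((j + 1) * h), GG d K w (pt i (m : ℤ))) := by
    intro j hj
    rw [hbad, Finset.mem_filter] at hj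
    have hjJ : j < J := Finset.mem_range.mp hj.1
    unfold WW
    rw [if_neg hj.2, sum_reindex]
    simp only [hc, if_pos hjJ]
  have hGG : ∀ j ∈ bad, ∀ m ∈ Ioc (j * h) ((j + 1) * h), GG d K w (pt i (m : ℤ)) ≠ ⊤ := by
    intro j hj m hm htop
    have h1 := hbadW j hj
    have h2 : ∑ m ∈ Ioc (j * h) ((j + 1) * h), GG d K w (pt i (m : ℤ)) = ⊤ :=
      ENNReal.sum_eq_top.mpr ⟨m, hm, htop⟩
    rw [h2] at h1
    have hj' : j ∈ range J := (Finset.mem_filter.mp (hbad ▸ hj)).1
    apply hWW j hj'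
    rw [h1, add_top, ENNReal.mul_top hC1ne, add_top]
  set q : ℕ → ℕ := fun j => 8 * h + ∑ m ∈ Ioc (j * h) ((j + 1) * h), (2 * ρ m + 7) ^ d with hq
  have hblock : ∀ j ∈ range J, ENNReal.ofReal (-(c j)) +
      (if j ∈ bad then ENNReal.ofReal C1 * (q j : ℝ≥0∞) else 0) ≤
        WW i L B K C1 h (sh (a j) w) := by
    intro j hj
    by_cases hjb : j ∈ bad
    · rw [if_pos hjb, hbadW j hjb]
      gcongr
      simp only [hq]
      push_cast
      gcongr with m hm
      have := (hρ m (hGG j hjb m hm)).2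
      push_cast at this
      exact this
    · rw [if_neg hjb, add_zero]
      unfold WW
      simp only [hc, if_pos (Finset.mem_range.mp hj)]
      exact le_self_add
  set Q : ℕ := ∑ j ∈ bad, q j with hQ
  have hsum : ENNReal.ofReal (∑ j ∈ range J, -(c j)) + ENNReal.ofReal C1 * (Q : ℝ≥0∞) <
      ENNReal.ofReal S := by
    refine lt_of_le_of_lt ?_ hS
    refine le_trans (le_of_eq ?_) (Finset.sum_le_sum hblock)
    rw [Finset.sum_add_distrib, ENNReal.ofReal_sum_of_nonneg
      (fun j _ => by have := hcle j; linarith)]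
    congr 1
    rw [← Finset.sum_filter, hQ]
    push_cast
    rw [Finset.mul_sum]
    have hbb : (range J).filter (fun j => j ∈ bad) = bad := by
      ext j
      rw [Finset.mem_filter]
      constructor
      · exact fun hj => hj.2
      · intro hj
        exact ⟨(Finset.mem_filter.mp (hbad ▸ hj)).1, hj⟩
    rw [hbb]
  have hsumR : (∑ j ∈ range J, -(c j)) + C1 * Q < S := by
    have h1 : 0 ≤ ∑ j ∈ range J, -(c j) :=
      Finset.sum_nonneg fun j _ => by have := hcle j; linarith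
    exact toreal _ C1 S Q h1 hC1pos.le hsum
  -- the modified environment
  set w' : V d → ℝ := fun x => if x i ≤ (J : ℤ) * h then w x else 0 with hw'
  have hw'T : ∀ x, w' x ≤ T := by
    intro x
    simp only [hw']
    split_ifs
    · exact hw x
    · exact hT
  have hw'eq : ∀ x : V d, x i ≤ (J : ℤ) * h → w' x = w x := by
    intro x hx
    simp only [hw', if_pos hx]
  have hw'0 : ∀ x : V d, ¬ x i ≤ (J : ℤ) * h → w' x = 0 := by
    intro x hx
    simp only [hw', if_neg hx]
  have hCl : ∀ x ∈ Cl K w', x i ≤ (J : ℤ) * h ∧ x ∈ Cl K w := by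
    intro x hx
    by_cases hxi : x i ≤ (J : ℤ) * h
    · refine ⟨hxi, ?_⟩
      have : w' x < -K := hx
      rw [hw'eq x hxi] at this
      exact this
    · exfalso
      have : w' x < -K := hx
      rw [hw'0 x hxi] at this
      linarith
  have hmulz : ∀ j : ℕ, ((j * h : ℕ) : ℤ) = (j : ℤ) * (h : ℤ) := fun j => by push_cast; ring
  have hstep : ∀ j : ℕ, (j + 1) * h = j * h + h := fun j => by ring
  obtain ⟨l, hl1, hl2, hl3⟩ := hch d i hd w' T K B L h (J + 1) (fun j => j * h) bad c ρ hT hK hB hh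
    hL (by omega) hw'T (by simp) (fun j hj => by
      have := hstep j
      omega) hcle
    (by
      intro j hj hjb
      have hcast : (((j + 1) * h : ℕ) : ℝ) - ((j * h : ℕ) : ℝ) = h := by push_cast; ring
      have hnat : (j + 1) * h - j * h = h := by rw [hstep]; omega
      rw [hcast, hnat]
      by_cases hjJ : j < J
      · have hY : YY (sh (a j) w) i L h (-(B * h)) := by
          by_contra hcon
          exact hjb (by rw [hbad, Finset.mem_filter]; exact ⟨Finset.mem_range.mpr hjJ, hcon⟩)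
        have hv := Pool.Agent.W3.GP.vv d i L B hB h (sh (a j) w)
        have hcj : c j = VV i L B h (sh (a j) w) := by simp only [hc, if_pos hjJ]
        rw [hcj]
        refine ⟨hv.1, ?_⟩
        obtain ⟨l0, h1, h2, h3⟩ := hv.2.2.1 hY
        have h4 := (sb_map_add (a j)).mpr h1
        have h5 : pt i (h : ℤ) + a j = pt i (((j + 1) * h : ℕ) : ℤ) := by
          simp only [ha]
          rw [← pt_add]
          congr 1
          push_cast
          ring
        have h6 : (0 : V d) + a j = pt i ((j * h : ℕ) : ℤ) := by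
          simp only [ha]
          rw [zero_add]
          congr 1
        rw [h5, h6] at h4
        refine ⟨l0.map (· + a j), h4, by simpa using h2, ?_⟩
        rw [wt_sh] at h3
        refine h3.trans (le_of_eq (wt_congr fun x hx => ?_))
        have h7 := (h4.2.2 x hx).2
        rw [pt_same] at h7
        refine (hw'eq x (h7.trans ?_)).symm
        rw [← hmulz]
        exact_mod_cast Nat.mul_le_mul_right h (show j + 1 ≤ J by omega)
      · have hjJ' : j = J := by omega
        subst hjJ'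
        have hcj : c j = 0 := by simp only [hc, if_neg hjJ]
        rw [hcj]
        refine ⟨neg_nonpos.mpr (mul_nonneg hB (Nat.cast_nonneg h)), ?_⟩
        have h4 := sb_line i ((j * h : ℕ) : ℤ) h
        have h5 : ((j * h : ℕ) : ℤ) + (h : ℤ) = (((j + 1) * h : ℕ) : ℤ) := by push_cast; ring
        rw [h5] at h4
        refine ⟨_, h4, ?_, ?_⟩
        · rw [length_line]
          exact Nat.le_mul_of_pos_left h hL
        · refine le_of_eq ?_
          have h6 : wt w' (line i ((j * h : ℕ) : ℤ) h) =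
              wt (fun _ => 0) (line i ((j * h : ℕ) : ℤ) h) := by
            refine wt_congr fun x hx => ?_
            have h7 := (h4.2.2 x hx).1
            rw [pt_same, hmulz] at h7
            exact hw'0 x (by omega)
          rw [h6]
          unfold wt
          simp)
    (by
      intro j hj hjb m hm1 hm2 hmc y hy
      have hjJ : j ∈ range J := (Finset.mem_filter.mp (hbad ▸ hjb)).1
      have hj0 : j ≠ 0 := by
        intro hj0
        have := (Finset.mem_filter.mp (hbad ▸ hjb)).2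
        apply this
        rw [hj0]
        simp only [ha]
        simpa using h0
      have hmh : h < m := by
        have : 1 * h ≤ j * h := Nat.mul_le_mul_right h (by omega)
        omega
      have hy' : y ∈ Hull (Cl K w) {pt i (m : ℤ)} :=
        hull_mono (fun x hx => (hCl x hx).2) (subset_refl _) hy
      refine ⟨(hρ m (hGG j hjb m (Finset.mem_Ioc.mpr ⟨hm1, hm2⟩))).1 y hy', ?_, ?_⟩
      · have h1 := nm_lt_of_not_far (hfar m hmh (hCl _ hmc).2) y hy'
        have h2 := natAbs_le_nm (y - pt i (m : ℤ)) i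
        rw [Pi.sub_apply, pt_same] at h2
        omega
      · have hyc : y ∈ Cl K w' := by
          obtain ⟨x, hx, hxy⟩ := hy
          rcases Relation.ReflTransGen.cases_tail hxy with h1 | ⟨z, _, h2⟩
          · rw [h1, Set.mem_singleton_iff.mp hx]
            exact hmc
          · exact h2.1
        have h1 := (hCl y hyc).1
        have h2 : (((J + 1) * h : ℕ) : ℤ) = (J : ℤ) * h + h := by push_cast; ring
        rw [h2]
        omega)
    Q (by
      have hbb : bad.filter (· < J + 1) = bad := by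
        refine Finset.filter_true_of_mem fun j hj => ?_
        have := Finset.mem_range.mp (Finset.mem_filter.mp (hbad ▸ hj)).1
        omega
      rw [hbb])
  -- the first part
  have hlen : n ≤ l.length := by
    have h1 := hl1.le_length
    rw [pt_same] at h1
    simp only [Pi.zero_apply] at h1
    have h2 : (J + 1) * h ≤ l.length := by
      have : (((J + 1) * h : ℕ) : ℤ) ≤ (l.length : ℤ) := by linarith
      exact_mod_cast this
    have := hstep J
    omega
  have hpre : l.take n <+: l := List.take_prefix n l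
  have hlt : (l.take n).length = n := by simp [hlen]
  have hP : IsP (0 :: l.take n) := hl1.isP.prefx ((List.prefix_cons_inj 0).mpr hpre)
  have hwt : wt w' (l.take n) = wt w (l.take n) := by
    refine wt_congr fun x hx => hw'eq x ?_
    have h1 := nm_le_of_chain hP.1 x hx
    rw [sub_zero, hlt] at h1
    have h2 := natAbs_le_nm x i
    have h3 : (n : ℤ) ≤ (J : ℤ) * h := by rw [← hmulz]; exact_mod_cast hn
    omega
  refine ⟨l.take n, hlt, hP, ?_⟩
  rw [← hwt]
  refine le_trans ?_ (hl3 _ hpre)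
  rw [Finset.sum_range_succ]
  have hcJ : c J = 0 := by simp [hc]
  rw [hcJ, add_zero]
  rw [Finset.sum_neg_distrib] at hsumR
  linarith

lemma exists_K (d : ℕ) (ν : Measure ℝ) [IsProbabilityMeasure ν] :
    ∃ K : ℝ, 0 ≤ K ∧ ν (Set.Iio (-K)) ≤ q0 d := by
  have h1 : (0 : ℝ) < Real.exp (-8) / 5 ^ d := by positivity
  obtain ⟨x, hx1, hx2⟩ := ((tendsto_cdf_atBot ν).eventually_le_const h1 |>.and
    (eventually_le_atBot (0 : ℝ))).exists
  refine ⟨-x, by linarith, ?_⟩
  rw [neg_neg]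
  calc ν (Set.Iio x) ≤ ν (Set.Iic x) := measure_mono Set.Iio_subset_Iic_self
    _ = ENNReal.ofReal (cdf ν x) := (ofReal_cdf ν x).symm
    _ ≤ q0 d := ENNReal.ofReal_le_ofReal hx1

/-- far closed clusters along the axis are unlikely -/
lemma far_tail (htail : S_TAIL) (i : Fin d) (ν : Measure ℝ) [IsProbabilityMeasure ν] (K : ℝ)
    (hK : ν (Set.Iio (-K)) ≤ q0 d) :
    Tendsto (fun h : ℕ => law ν d {w | ∃ m : ℕ, h < m ∧ pt i (m : ℤ) ∈ Cl K w ∧
      Far K w (pt i (m : ℤ)) (m - 3)}) atTop (𝓝 0) := by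
  set f : ℕ → ℝ≥0∞ := fun m => ENNReal.ofReal (Real.exp (-(m : ℝ))) with hf
  have hfs : ∑' m, f m ≠ ⊤ := Real.summable_exp_neg_nat.tsum_ofReal_ne_top
  have h1 := ENNReal.tendsto_sum_nat_add f hfs
  refine tendsto_of_tendsto_of_tendsto_of_le_of_le tendsto_const_nhds h1 (fun _ => bot_le) ?_
  intro h
  have hsub : {w : V d → ℝ | ∃ m : ℕ, h < m ∧ pt i (m : ℤ) ∈ Cl K w ∧
      Far K w (pt i (m : ℤ)) (m - 3)} ⊆ ⋃ k : ℕ, {w | pt i ((k + h : ℕ) : ℤ) ∈ Cl K w ∧
        Far K w (pt i ((k + h : ℕ) : ℤ)) (k + h - 3)} := by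
    rintro w ⟨m, hm, h2, h3⟩
    rw [Set.mem_iUnion]
    refine ⟨m - h, ?_⟩
    have : m - h + h = m := by omega
    rw [this]
    exact ⟨h2, h3⟩
  refine (measure_mono hsub).trans ((measure_iUnion_le _).trans (ENNReal.tsum_le_tsum fun k => ?_))
  refine (htail d ν K hK (pt i ((k + h : ℕ) : ℤ)) (k + h - 3)).2.trans ?_
  simp only [hf]
  refine ENNReal.ofReal_le_ofReal (Real.exp_le_exp.mpr ?_)
  have h4 : k + h ≤ (k + h - 3) + 3 := by omega
  have h5 : ((k + h : ℕ) : ℝ) ≤ ((k + h - 3 : ℕ) : ℝ) + 3 := by exact_mod_cast h4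
  have h6 : (0 : ℝ) ≤ ((k + h - 3 : ℕ) : ℝ) := Nat.cast_nonneg _
  linarith

lemma summ (C : ℝ) : ∑' k : ℕ, ENNReal.ofReal (C / Real.sqrt ((2 ^ k : ℕ) : ℝ)) ≠ ⊤ := by
  refine Summable.tsum_ofReal_ne_top ?_
  have h1 : ∀ k : ℕ, C / Real.sqrt ((2 ^ k : ℕ) : ℝ) = C * (1 / Real.sqrt 2) ^ k := by
    intro k
    push_cast
    rw [Real.sqrt_eq_rpow, Real.sqrt_eq_rpow, ← Real.rpow_natCast 2 k, ← Real.rpow_mul (by norm_num),
      mul_comm (k : ℝ), Real.rpow_mul (by norm_num), Real.rpow_natCast, one_div_pow]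
    ring
  simp_rw [h1]
  refine Summable.mul_left C (summable_geometric_of_lt_one (by positivity) ?_)
  rw [div_lt_one (by positivity)]
  exact Real.lt_sqrt_of_sq_lt (by norm_num)

theorem clbi (hch : S_CH) (hww : S_WW) (htail : S_TAIL) : S_CLBI := by
  intro d i ν _ T B L hyp ε η hε hη
  obtain ⟨hd, hT, hνT, hB, hL, htend⟩ := hyp
  obtain ⟨K, hK0, hK⟩ := exists_K d ν
  set C1 : ℝ := B + T * L + 2 * K + 2 with hC1
  have hC1pos : 0 < C1 := by positivity
  obtain ⟨h1, hh1⟩ := hww d i ν K B L hK hB htend C1 (ε / 2) hC1pos.le (by positivity)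
  have hη2 : 0 < ENNReal.ofReal (η / 2) := ENNReal.ofReal_pos.mpr (by positivity)
  obtain ⟨h2, hh2⟩ := ENNReal.tendsto_atTop_zero.1 htend _ hη2
  obtain ⟨h3, hh3⟩ := ENNReal.tendsto_atTop_zero.1 (far_tail htail i ν K hK) _ hη2
  refine ⟨max (max h1 h2) (max h3 10), fun h hh => ?_⟩
  have hh1' : h1 ≤ h := le_trans (le_trans (le_max_left _ _) (le_max_left _ _)) hh
  have hh2' : h2 ≤ h := le_trans (le_trans (le_max_right _ _) (le_max_left _ _)) hh
  have hh3' : h3 ≤ h := le_trans (le_trans (le_max_left _ _) (le_max_right _ _)) hh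
  have hh10 : 10 ≤ h := le_trans (le_trans (le_max_right _ _) (le_max_right _ _)) hh
  obtain ⟨C', hC'⟩ := hh1 h hh1'
  have haa : aa ν i L B h ≤ 0 := by
    unfold aa
    refine div_nonpos_of_nonpos_of_nonneg (integral_nonpos fun w => ?_) (Nat.cast_nonneg h)
    exact (Pool.Agent.W3.GP.vv d i L B hB h w).2.1
  set A : ℝ := aa ν i L B h with hA
  set E : ℕ → Set (V d → ℝ) := fun k => {w | ENNReal.ofReal ((-A + ε / 2) * h * ((2 ^ k : ℕ) : ℝ)) ≤
    ∑ j ∈ range (2 ^ k), WW i L B K C1 h (sh (pt i (j * h)) w)} with hE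
  have hBC : ∀ᵐ w ∂law ν d, ∀ᶠ k in atTop, w ∉ E k := by
    refine ae_eventually_notMem (ne_top_of_le_ne_top (summ C') (ENNReal.tsum_le_tsum fun k => ?_))
    exact hC' (2 ^ k) Nat.one_le_two_pow
  have hTae : ∀ᵐ w ∂law ν d, ∀ x, w x ≤ T := ae_le hνT
  have hgood : ∀ w : V d → ℝ, (∀ᶠ k in atTop, w ∉ E k) → (∀ x, w x ≤ T) →
      YY w i L h (-(B * h)) → (¬ ∃ m : ℕ, h < m ∧ pt i (m : ℤ) ∈ Cl K w ∧
      Far K w (pt i (m : ℤ)) (m - 3)) → ∀ᶠ n : ℕ in atTop, Lo w n (2 * (A - ε) * n) := by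
    intro w hw1 hw2 hw3 hw4
    obtain ⟨k0, hk0⟩ := eventually_atTop.1 hw1
    filter_upwards [eventually_gt_atTop (2 ^ k0 * h), eventually_ge_atTop ⌈8 * C1 * h / ε⌉₊]
      with n hn1 hn2
    have hex : ∃ k : ℕ, n ≤ 2 ^ k * h := by
      refine ⟨n, ?_⟩
      calc n ≤ 2 ^ n := Nat.lt_two_pow_self.le
        _ ≤ 2 ^ n * h := Nat.le_mul_of_pos_right _ (by omega)
    classical
    have hk1 := Nat.find_spec hex
    set k := Nat.find hex with hk
    have hkk0 : k0 < k := by
      by_contra hcon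
      have : 2 ^ k * h ≤ 2 ^ k0 * h := Nat.mul_le_mul_right h
        (Nat.pow_le_pow_right (by norm_num) (by omega))
      omega
    have hk2 : 2 ^ (k - 1) * h < n := by
      have := Nat.find_min hex (m := k - 1) (by omega)
      omega
    have hk3 : 2 ^ k * h < 2 * n := by
      have h5 : 2 ^ k = 2 * 2 ^ (k - 1) := by
        rw [← pow_succ', Nat.sub_add_cancel (by omega)]
      rw [h5, mul_assoc]
      omega
    have hS := hk0 k hkk0.le
    simp only [hE, Set.mem_ofPred_eq, not_le] at hS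
    have hlo := det hch i hd w T K B L h (2 ^ k) hT hK0 hB hh10 hL hw2 hw3
      (fun m hm hmc hmf => hw4 ⟨m, hm, hmc, hmf⟩) _ hS n hk1
    refine hlo.mono ?_
    rw [← hC1]
    have h6 : ((2 ^ k * h : ℕ) : ℝ) ≤ 2 * n := by exact_mod_cast hk3.le
    push_cast at h6
    have h7 : 8 * C1 * h ≤ ε * n := by
      have h8 : 8 * C1 * h / ε ≤ n := (Nat.le_ceil _).trans (by exact_mod_cast hn2)
      rw [div_le_iff₀ hε] at h8
      linarith
    have h9 : 0 ≤ -A + ε / 2 := by linarith
    push_cast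
    nlinarith [mul_le_mul_of_nonneg_left h6 h9]
  have hcover : {w : V d → ℝ | ¬ ∀ᶠ n : ℕ in atTop, Lo w n (2 * (A - ε) * n)} ⊆
      (({w | ¬ ∀ᶠ k in atTop, w ∉ E k} ∪ {w | ¬ ∀ x, w x ≤ T}) ∪
        {w | ¬ YY w i L h (-(B * h))}) ∪ {w | ∃ m : ℕ, h < m ∧ pt i (m : ℤ) ∈ Cl K w ∧
          Far K w (pt i (m : ℤ)) (m - 3)} := by
    intro w hw
    by_contra hcon
    simp only [Set.mem_union, Set.mem_ofPred_eq, not_or, not_not] at hcon
    exact hw (hgood w hcon.1.1.1 hcon.1.1.2 hcon.1.2 hcon.2)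
  refine (measure_mono hcover).trans ?_
  refine (measure_union_le _ _).trans ?_
  refine (add_le_add_left ((measure_union_le _ _).trans (add_le_add_left
    (measure_union_le _ _) _)) _).trans ?_
  rw [ae_iff.1 hBC, ae_iff.1 hTae, zero_add, zero_add]
  refine (add_le_add (hh2 h hh2') (hh3 h hh3')).trans ?_
  rw [← ENNReal.ofReal_add (by positivity) (by positivity), add_halves]

end Pool.Agent.W366.GP
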