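import Pool.Agent.W844.GP.Defs
import Pool.Agent.W844.VG.Basic

/-!
# Project GP: basic lemmas
-/

set_option autoImplicit false

open Finset MeasureTheory ProbabilityTheory Filter Topology
open scoped ENNReal

namespace Pool.Agent.W844.GP

open Pool.Agent.W844.VG

variable {d : ℕ}

/-! ### law -/

instance (ν : Measure ℝ) [IsProbabilityMeasure ν] : IsProbabilityMeasure (law ν d) := by
  unfold law; infer_instance

lemma mp_inj (ν : Measure ℝ) [IsProbabilityMeasure ν] {f : V d → V d}
    (hf : Function.Injective f) :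
    MeasurePreserving (fun (w : V d → ℝ) x => w (f x)) (law ν d) (law ν d) where
  measurable := by fun_prop
  map_eq := Measure.map_infinitePi_infinitePi_of_inj (P := fun _ : V d => ν) hf

/-- relabelling by a bijection, as a measurable equivalence -/
def relab (e : V d ≃ V d) : (V d → ℝ) ≃ᵐ (V d → ℝ) where
  toFun w x := w (e x)
  invFun w x := w (e.symm x)
  left_inv w := by funext x; simp
  right_inv w := by funext x; simp
  measurable_toFun := by dsimp; fun_prop
  measurable_invFun := by dsimp; fun_prop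

/-- invariance of the law under relabelling (no measurability needed) -/
lemma law_relab (ν : Measure ℝ) [IsProbabilityMeasure ν] (e : V d ≃ V d) (s : Set (V d → ℝ)) :
    law ν d {w | (fun x => w (e x)) ∈ s} = law ν d s :=
  (MeasurePreserving.measure_preimage_equiv (f := relab e) (mp_inj ν e.injective) s)

lemma mp_sh (ν : Measure ℝ) [IsProbabilityMeasure ν] (a : V d) :
    MeasurePreserving (sh a) (law ν d) (law ν d) :=
  mp_inj ν (add_left_injective a)

/-- invariance of the law under shifts (no measurability needed) -/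
lemma law_sh (ν : Measure ℝ) [IsProbabilityMeasure ν] (a : V d) (s : Set (V d → ℝ)) :
    law ν d {w | sh a w ∈ s} = law ν d s :=
  law_relab ν (Equiv.addRight a) s

lemma law_map (ν : Measure ℝ) [IsProbabilityMeasure ν] {f : ℝ → ℝ} (hf : Measurable f) :
    (law ν d).map (fun w x => f (w x)) = law (ν.map f) d :=
  Measure.infinitePi_map_pi (μ := fun _ : V d => ν) (f := fun _ => f) (fun _ => hf)

instance (ν : Measure ℝ) [IsProbabilityMeasure ν] (κ : ℝ) :
    IsProbabilityMeasure (ν.map (· + κ)) :=
  Measure.isProbabilityMeasure_map (by fun_prop)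

/-- adding a constant, as a measurable equivalence -/
def addEquiv (d : ℕ) (κ : ℝ) : (V d → ℝ) ≃ᵐ (V d → ℝ) where
  toFun w x := w x + κ
  invFun w x := w x - κ
  left_inv w := by funext x; simp
  right_inv w := by funext x; simp
  measurable_toFun := by dsimp; fun_prop
  measurable_invFun := by dsimp; fun_prop

/-- law of the environment plus a constant (no measurability needed) -/
lemma law_add (ν : Measure ℝ) [IsProbabilityMeasure ν] (κ : ℝ) (s : Set (V d → ℝ)) :
    law (ν.map (· + κ)) d s = law ν d {w | (fun x => w x + κ) ∈ s} := by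
  rw [← law_map ν (f := (· + κ)) (by fun_prop)]
  exact (addEquiv d κ).map_apply s

lemma law_eval (ν : Measure ℝ) [IsProbabilityMeasure ν] (x : V d) {s : Set ℝ}
    (hs : MeasurableSet s) : law ν d {w | w x ∈ s} = ν s := by
  have h := (measurePreserving_eval_infinitePi (fun _ : V d => ν) x).measure_preimage
    hs.nullMeasurableSet
  exact h

lemma ae_le {ν : Measure ℝ} [IsProbabilityMeasure ν] {T : ℝ} (h : ν (Set.Ioi T) = 0) :
    ∀ᵐ w ∂law ν d, ∀ x, w x ≤ T := by
  rw [ae_all_iff]
  intro x
  rw [ae_iff]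
  have : {w : V d → ℝ | ¬ w x ≤ T} = {w | w x ∈ Set.Ioi T} := by ext w; simp
  rw [this, law_eval ν x measurableSet_Ioi, h]

/-! ### coordinates -/

@[simp] lemma pt_same (i : Fin d) (m : ℤ) : pt i m i = m := by simp [pt]

lemma pt_ne {i j : Fin d} (h : j ≠ i) (m : ℤ) : pt i m j = 0 := by simp [pt, h]

@[simp] lemma pt_zero (i : Fin d) : pt i 0 = 0 := by simp [pt]

lemma pt_add (i : Fin d) (m n : ℤ) : pt i (m + n) = pt i m + pt i n := by
  simp [pt, Pi.single_add]

lemma pt_sub (i : Fin d) (m n : ℤ) : pt i (m - n) = pt i m - pt i n := by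
  simp [pt, Pi.single_sub]

lemma pt_one (i : Fin d) : pt i 1 = stp i := rfl

lemma nm_pt (i : Fin d) (m : ℤ) : nm (pt i m) = m.natAbs := by
  apply le_antisymm
  · rw [nm_le_iff]; intro j
    by_cases h : j = i
    · subst h; simp
    · simp [pt_ne h]
  · have := natAbs_le_nm (pt i m) i
    simpa using this

/-! ### adjacency -/

lemma adj_comm {x y : V d} : adj x y ↔ adj y x := by
  unfold adj; simp_rw [abs_sub_comm]

lemma adj.symm {x y : V d} (h : adj x y) : adj y x := adj_comm.mp h

lemma adj_add {x y : V d} (a : V d) : adj (x + a) (y + a) ↔ adj x y := by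
  unfold adj; simp

lemma adj.ne {x y : V d} (h : adj x y) : x ≠ y := by
  rintro rfl; simp [adj] at h

lemma adj_iff {x y : V d} : adj x y ↔ ∃ i, y = x + stp i ∨ y = x - stp i := by
  constructor
  · intro h
    unfold adj at h
    have h1 : ∃ i, y i - x i ≠ 0 := by
      by_contra hc; push Not at hc
      simp [hc] at h
    obtain ⟨i, hi⟩ := h1
    have h2 : 1 ≤ |y i - x i| := Int.one_le_abs hi
    have h3 : |y i - x i| + ∑ j ∈ univ.erase i, |y j - x j| = 1 := by
      rw [add_sum_erase univ (fun j => |y j - x j|) (mem_univ i)]; exact h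
    have h4 : 0 ≤ ∑ j ∈ univ.erase i, |y j - x j| := sum_nonneg fun j _ => abs_nonneg _
    have h5 : |y i - x i| = 1 := by omega
    have h6 : ∑ j ∈ univ.erase i, |y j - x j| = 0 := by omega
    have h7 : ∀ j, j ≠ i → y j - x j = 0 := by
      intro j hj
      have := (sum_eq_zero_iff_of_nonneg (fun j _ => abs_nonneg (y j - x j))).mp h6 j
        (mem_erase.mpr ⟨hj, mem_univ j⟩)
      exact abs_eq_zero.mp this
    refine ⟨i, ?_⟩
    rcases (abs_eq (by norm_num)).mp h5 with h | h
    · left; funext j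
      by_cases hj : j = i
      · subst hj; simp [stp_same]; omega
      · simp [stp_ne hj]; have := h7 j hj; omega
    · right; funext j
      by_cases hj : j = i
      · subst hj; simp [stp_same]; omega
      · simp [stp_ne hj]; have := h7 j hj; omega
  · rintro ⟨i, h | h⟩ <;> subst h <;> unfold adj
    · rw [sum_eq_single i]
      · simp [stp_same]
      · intro j _ hj; simp [stp_ne hj]
      · simp
    · rw [sum_eq_single i]
      · simp [stp_same]
      · intro j _ hj; simp [stp_ne hj]
      · simp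

lemma adj.nm {x y : V d} (h : adj x y) : nm (y - x) ≤ 1 := by
  rw [nm_le_iff]; intro i
  unfold adj at h
  have : |y i - x i| ≤ 1 := by
    rw [← h]; exact single_le_sum (f := fun j => |y j - x j|) (fun j _ => abs_nonneg _) (mem_univ i)
  rw [Int.abs_eq_natAbs] at this
  simp only [Pi.sub_apply]; omega

lemma adj.abs_sub_le {x y : V d} (h : adj x y) (i : Fin d) : |y i - x i| ≤ 1 := by
  unfold adj at h
  rw [← h]; exact single_le_sum (f := fun j => |y j - x j|) (fun j _ => abs_nonneg _) (mem_univ i)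

lemma adj_stp (x : V d) (i : Fin d) : adj x (x + stp i) := adj_iff.mpr ⟨i, Or.inl rfl⟩

lemma adj_sub_stp (x : V d) (i : Fin d) : adj x (x - stp i) := adj_iff.mpr ⟨i, Or.inr rfl⟩

/-! ### weights -/

@[simp] lemma wt_nil (w : V d → ℝ) : wt w [] = 0 := rfl

@[simp] lemma wt_cons (w : V d → ℝ) (x : V d) (l : List (V d)) : wt w (x :: l) = w x + wt w l := by
  simp [wt]

@[simp] lemma wt_append (w : V d → ℝ) (l l' : List (V d)) :
    wt w (l ++ l') = wt w l + wt w l' := by
  simp [wt]

@[simp] lemma wt_reverse (w : V d → ℝ) (l : List (V d)) : wt w l.reverse = wt w l := by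
  simp [wt]

lemma wt_sh (a : V d) (w : V d → ℝ) (l : List (V d)) :
    wt (sh a w) l = wt w (l.map (· + a)) := by
  unfold wt; rw [List.map_map]; rfl

open scoped Classical in
lemma wt_eq_sum (w : V d → ℝ) {l : List (V d)} (h : l.Nodup) :
    wt w l = ∑ x ∈ l.toFinset, w x := by
  unfold wt; rw [List.sum_toFinset w h]

lemma wt_add (κ : ℝ) (w : V d → ℝ) (l : List (V d)) :
    wt (fun x => w x + κ) l = wt w l + κ * l.length := by
  induction l with
  | nil => simp
  | cons x l ih => simp [ih]; ring

lemma wt_le {w : V d → ℝ} {T : ℝ} (h : ∀ x, w x ≤ T) (l : List (V d)) :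
    wt w l ≤ T * l.length := by
  induction l with
  | nil => simp
  | cons x l ih => have := h x; simp; linarith

lemma le_wt {w : V d → ℝ} {K : ℝ} (l : List (V d)) (h : ∀ x ∈ l, -K ≤ w x) :
    -(K * l.length) ≤ wt w l := by
  induction l with
  | nil => simp
  | cons x l ih =>
    have h1 := h x (by simp)
    have h2 := ih fun y hy => h y (by simp [hy])
    simp; linarith

lemma wt_congr {w w' : V d → ℝ} {l : List (V d)} (h : ∀ x ∈ l, w x = w' x) :
    wt w l = wt w' l := by
  unfold wt; rw [List.map_congr_left h]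

@[fun_prop]
lemma measurable_wt (l : List (V d)) : Measurable fun w : V d → ℝ => wt w l := by
  induction l with
  | nil => simp
  | cons x l ih => simp only [wt_cons]; fun_prop

/-! ### paths -/

lemma IsP.nodup {l : List (V d)} (h : IsP l) : l.Nodup := h.2

lemma IsP.chain {l : List (V d)} (h : IsP l) : l.IsChain adj := h.1

@[simp] lemma isP_nil : IsP ([] : List (V d)) := by simp [IsP]

@[simp] lemma isP_singleton (x : V d) : IsP [x] := by simp [IsP]

lemma chain_infx {α : Type*} {R : α → α → Prop} {l l' : List α} (h : l.IsChain R)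
    (h' : l' <:+: l) : l'.IsChain R := by
  obtain ⟨s, t, rfl⟩ := h'
  exact ((List.isChain_append.mp (List.isChain_append.mp h).1)).2.1

lemma IsP.infx {l l' : List (V d)} (h : IsP l) (h' : l' <:+: l) : IsP l' :=
  ⟨chain_infx h.1 h', h.2.sublist h'.sublist⟩

lemma IsP.prefx {l l' : List (V d)} (h : IsP l) (h' : l' <+: l) : IsP l' :=
  h.infx h'.isInfix

lemma IsP.suffix {l l' : List (V d)} (h : IsP l) (h' : l' <:+ l) : IsP l' :=
  h.infx h'.isInfix

lemma IsP.reverse {l : List (V d)} (h : IsP l) : IsP l.reverse := by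
  refine ⟨?_, List.nodup_reverse.mpr h.2⟩
  rw [List.isChain_reverse]
  refine h.1.imp fun a b hab => hab.symm

lemma isP_map_add (a : V d) {l : List (V d)} : IsP (l.map (· + a)) ↔ IsP l := by
  unfold IsP
  rw [List.isChain_map, List.nodup_map_iff (add_left_injective a)]
  simp [adj_add]

lemma IsP.cons_iff {x y : V d} {l : List (V d)} :
    IsP (x :: y :: l) ↔ adj x y ∧ x ∉ y :: l ∧ IsP (y :: l) := by
  unfold IsP
  rw [List.isChain_cons_cons, List.nodup_cons]
  tauto

/-- concatenation of paths -/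
lemma IsP.append {l l' : List (V d)} (h : IsP l) (h' : IsP l')
    (hd : ∀ x ∈ l, ∀ y ∈ l', x ≠ y) (ha : ∀ x ∈ l.getLast?, ∀ y ∈ l'.head?, adj x y) :
    IsP (l ++ l') := by
  refine ⟨List.isChain_append.mpr ⟨h.1, h'.1, ha⟩, ?_⟩
  rw [List.nodup_append]
  exact ⟨h.2, h'.2, fun x hx y hy => hd x hx y hy⟩

/-- the `k`-th vertex of a path is within distance `k` of the first one -/
lemma nm_le_of_chain {x : V d} {l : List (V d)} (h : (x :: l).IsChain adj) :
    ∀ z ∈ l, nm (z - x) ≤ l.length := by
  induction l generalizing x with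
  | nil => simp
  | cons y l ih =>
    intro z hz
    rw [List.isChain_cons_cons] at h
    rcases List.mem_cons.mp hz with rfl | hz
    · have := h.1.nm; simp; omega
    · have h1 := ih h.2 z hz
      have h2 := h.1.nm
      have h3 := nm_tri z y x
      simp; omega

/-! ### strict bridges -/

lemma SB.isP {i : Fin d} {l : List (V d)} {x y : V d} (h : SB i l x y) : IsP (x :: l) := h.1

lemma sb_map_add (a : V d) {i : Fin d} {l : List (V d)} {x y : V d} :
    SB i (l.map (· + a)) (x + a) (y + a) ↔ SB i l x y := by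
  unfold SB
  rw [← List.map_cons (f := (· + a)), isP_map_add, List.getLast?_map]
  simp

lemma SB.le {i : Fin d} {l : List (V d)} {x y : V d} (h : SB i l x y) : x i ≤ y i := by
  rcases l.eq_nil_or_concat' with rfl | ⟨l', z, rfl⟩
  · have := h.2.1; simp at this; rw [this]
  · have h1 := h.2.1
    rw [show x :: (l' ++ [z]) = (x :: l') ++ [z] from rfl, List.getLast?_concat] at h1
    have h2 := h.2.2 z (by simp)
    have : z = y := by simpa using h1
    rw [this] at h2; exact h2.1.le

/-- concatenation of strict bridges -/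
lemma SB.append {i : Fin d} {l l' : List (V d)} {x y z : V d} (h : SB i l x y) (h' : SB i l' y z) :
    SB i (l ++ l') x z := by
  have hyz := h'.le
  have hxy := h.le
  refine ⟨?_, ?_, ?_⟩
  · have h1 : IsP l' := h'.1.suffix (List.suffix_cons y l')
    rw [show x :: (l ++ l') = (x :: l) ++ l' from rfl]
    refine h.1.append h1 ?_ ?_
    · intro u hu v hv huv
      have h2 := (h'.2.2 v hv).1
      have h3 : u i ≤ y i := by
        rcases List.mem_cons.mp hu with rfl | hu
        · exact hxy
        · exact (h.2.2 u hu).2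
      rw [huv] at h3; omega
    · intro u hu v hv
      rw [h.2.1] at hu
      have hu' : u = y := by simpa using hu.symm
      subst hu'
      cases l' with
      | nil => simp at hv
      | cons v' l' =>
        have hv' : v = v' := by simpa using hv.symm
        subst hv'
        exact (IsP.cons_iff.mp h'.1).1
  · rw [show x :: (l ++ l') = (x :: l) ++ l' from rfl]
    rcases l'.eq_nil_or_concat' with rfl | ⟨l'', u, rfl⟩
    · have h1 := h'.2.1
      have : y = z := by simpa using h1
      subst this; simpa using h.2.1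
    · have h1 := h'.2.1
      rw [show y :: (l'' ++ [u]) = (y :: l'') ++ [u] from rfl, List.getLast?_concat] at h1
      rw [← List.append_assoc, List.getLast?_concat]; exact h1
  · intro u hu
    rcases List.mem_append.mp hu with hu | hu
    · have := h.2.2 u hu; omega
    · have := h'.2.2 u hu; omega

/-- a straight line -/
def line (i : Fin d) (m : ℤ) (h : ℕ) : List (V d) :=
  (List.range h).map fun k : ℕ => pt i (m + k + 1)

@[simp] lemma length_line (i : Fin d) (m : ℤ) (h : ℕ) : (line i m h).length = h := by simp [line]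

lemma line_succ (i : Fin d) (m : ℤ) (h : ℕ) :
    line i m (h + 1) = pt i (m + 1) :: line i (m + 1) h := by
  unfold line
  rw [List.range_succ_eq_map, List.map_cons, List.map_map]
  congr 1
  · simp
  · refine List.map_congr_left fun k _ => ?_
    simp only [Function.comp]; congr 1; push_cast; ring

lemma mem_line {i : Fin d} {m : ℤ} {h : ℕ} {x : V d} :
    x ∈ line i m h ↔ ∃ k : ℤ, m < k ∧ k ≤ m + h ∧ x = pt i k := by
  unfold line
  simp only [List.mem_map, List.mem_range]
  constructor
  · rintro ⟨k, hk, rfl⟩; exact ⟨m + k + 1, by omega, by omega, rfl⟩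
  · rintro ⟨k, h1, h2, rfl⟩
    refine ⟨(k - m - 1).toNat, by omega, ?_⟩
    congr 1; omega

lemma sb_line (i : Fin d) (m : ℤ) (h : ℕ) : SB i (line i m h) (pt i m) (pt i (m + h)) := by
  induction h generalizing m with
  | zero => refine ⟨by simp [line], by simp [line], by simp [line]⟩
  | succ h ih =>
    have h1 : SB i [pt i (m + 1)] (pt i m) (pt i (m + 1)) := by
      refine ⟨?_, by simp, by simp⟩
      rw [IsP.cons_iff]
      refine ⟨?_, ?_, isP_singleton _⟩
      · rw [pt_add, pt_one]; exact adj_stp _ _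
      · simp only [List.mem_singleton]
        intro hc; have := congrFun hc i; simp at this
    have h2 := h1.append (ih (m + 1))
    rw [line_succ]
    have h3 : m + 1 + (h : ℤ) = m + ((h + 1 : ℕ) : ℤ) := by push_cast; ring
    rw [h3] at h2
    simpa using h2

lemma wb_map_add (a : V d) {i : Fin d} {l : List (V d)} {x y : V d} :
    WB i (l.map (· + a)) (x + a) (y + a) ↔ WB i l x y := by
  unfold WB
  rw [isP_map_add, List.getLast?_map, List.head?_map]
  simp

lemma WB.isP {i : Fin d} {l : List (V d)} {x y : V d} (h : WB i l x y) : IsP l := h.1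

/-! ### monotonicity -/

lemma YY.mono {w : V d → ℝ} {i : Fin d} {L L' R : ℕ} {c c' : ℝ} (h : YY w i L R c) (hL : L ≤ L')
    (hc : c' ≤ c) : YY w i L' R c' := by
  obtain ⟨l, h1, h2, h3⟩ := h
  exact ⟨l, h1, h2.trans (Nat.mul_le_mul_right _ hL), hc.trans h3⟩

lemma Lo.mono {w : V d → ℝ} {n : ℕ} {a a' : ℝ} (h : Lo w n a) (ha : a' ≤ a) : Lo w n a' := by
  obtain ⟨l, h1, h2, h3⟩ := h
  exact ⟨l, h1, h2, ha.trans h3⟩

lemma lo_add {w : V d → ℝ} {n : ℕ} {a κ : ℝ} :
    Lo (fun x => w x + κ) n a ↔ Lo w n (a - κ * n) := by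
  unfold Lo
  refine exists_congr fun l => ?_
  constructor
  · rintro ⟨h1, h2, h3⟩
    rw [wt_add, h1] at h3; exact ⟨h1, h2, by linarith⟩
  · rintro ⟨h1, h2, h3⟩
    refine ⟨h1, h2, ?_⟩
    rw [wt_add, h1]; linarith

lemma Big.mono {w : V d → ℝ} {a : V d} {R R' : ℕ} {c c' : ℝ} (h : Big w a R c) (hR : R ≤ R')
    (hc : c' ≤ c) : Big w a R' c' := by
  obtain ⟨l, h1, h2, h3⟩ := h
  refine ⟨l, h1, fun z hz j => ?_, hc.trans h3⟩
  have := h2 z hz j
  omega

/-- from a bridge to a path of given length: prefixes of a path from `0` -/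
lemma lo_of_prefix {w : V d → ℝ} {l l' : List (V d)} (h : IsP (0 :: l)) (h' : l' <+: l) :
    Lo w l'.length (wt w l') :=
  ⟨l', rfl, h.prefx (List.prefix_cons_inj 0 |>.mpr h'), le_rfl⟩

/-- a strict bridge from height `0` to height `R` has at least `R` steps -/
lemma SB.le_length {i : Fin d} {l : List (V d)} {x y : V d} (h : SB i l x y) :
    y i - x i ≤ l.length := by
  have h1 : y ∈ x :: l := List.mem_of_getLast? h.2.1
  rcases List.mem_cons.mp h1 with rfl | h1
  · simp
  · have h2 := nm_le_of_chain h.1.1 y h1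
    have h3 := abs_le_nm (y - x) i
    have h4 := le_abs_self ((y - x) i)
    simp only [Pi.sub_apply] at h3 h4
    omega

/-! ### shifts -/

@[simp] lemma sh_apply (a : V d) (w : V d → ℝ) (x : V d) : sh a w x = w (x + a) := rfl

@[simp] lemma sh_zero (w : V d → ℝ) : sh 0 w = w := by funext x; simp [sh]

lemma sh_sh (a b : V d) (w : V d → ℝ) : sh a (sh b w) = sh (a + b) w := by
  funext x; simp [sh, add_assoc]

lemma mem_cl_sh {K : ℝ} {a : V d} {w : V d → ℝ} {x : V d} :
    x ∈ Cl K (sh a w) ↔ x + a ∈ Cl K w := Iff.rfl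

lemma hull_sh {K : ℝ} {a : V d} {w : V d → ℝ} {x y : V d} :
    y ∈ Hull (Cl K (sh a w)) {x} ↔ y + a ∈ Hull (Cl K w) {x + a} := by
  unfold Hull
  simp only [Set.mem_ofPred_eq, Set.mem_singleton_iff, exists_eq_left]
  constructor
  · intro h
    induction h with
    | refl => exact Relation.ReflTransGen.refl
    | tail _ h ih => exact ih.tail ⟨h.1, by simpa using h.2⟩
  · intro h
    generalize hz : y + a = z at h
    induction h generalizing y with
    | refl =>
      have : x = y := by simpa using hz.symm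
      subst this; exact Relation.ReflTransGen.refl
    | @tail b c _ h ih =>
      have h1 := @ih (b - a) (by simp)
      refine h1.tail ⟨?_, ?_⟩
      · rw [mem_cl_sh, hz]; exact h.1
      · have h2 : y - (b - a) = c - b := by rw [← hz]; abel
        rw [h2]; exact h.2

lemma far_sh {K : ℝ} {a : V d} {w : V d → ℝ} {x : V d} {k : ℕ} :
    Far K (sh a w) x k ↔ Far K w (x + a) k := by
  unfold Far
  constructor
  · rintro ⟨y, h1, h2⟩
    exact ⟨y + a, hull_sh.mp h1, by simpa using h2⟩
  · rintro ⟨y, h1, h2⟩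
    refine ⟨y - a, hull_sh.mpr (by simpa using h1), ?_⟩
    have : y - a - x = y - (x + a) := by abel
    rw [this]; exact h2

lemma gg_sh {p : ℕ} {K : ℝ} {a : V d} {w : V d → ℝ} {x : V d} :
    GG p K (sh a w) x = GG p K w (x + a) := by
  classical
  unfold GG
  refine tsum_congr fun k => ?_
  by_cases h : Far K w (x + a) k
  · rw [if_pos h, if_pos (far_sh.mpr h)]
  · rw [if_neg h, if_neg (fun hc => h (far_sh.mp hc))]

/-! ### hulls -/

lemma subset_hull (Z D : Set (V d)) : D ⊆ Hull Z D := fun x hx => ⟨x, hx, Relation.ReflTransGen.refl⟩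

/-- the complement of the hull near the hull is free of `Z` -/
lemma notMem_of_nb {Z D : Set (V d)} {z : V d} (h : z ∉ Hull Z D) (h' : z ∈ Nb (Hull Z D) 2) :
    z ∉ Z := by
  intro hz
  obtain ⟨y, ⟨x, hx, hxy⟩, hy⟩ := h'
  exact h ⟨x, hx, hxy.tail ⟨hz, hy⟩⟩

lemma hull_mono {Z Z' D D' : Set (V d)} (h : Z ⊆ Z') (h' : D ⊆ D') : Hull Z D ⊆ Hull Z' D' := by
  rintro y ⟨x, hx, hxy⟩
  refine ⟨x, h' hx, ?_⟩
  induction hxy with
  | refl => exact Relation.ReflTransGen.refl
  | tail _ hab ih => exact ih.tail ⟨h hab.1, hab.2⟩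

lemma hull_eq_biUnion (Z D : Set (V d)) : Hull Z D = ⋃ x ∈ D, Hull Z {x} := by
  ext y; simp [Hull]

lemma Far.anti {K : ℝ} {w : V d → ℝ} {x : V d} {k k' : ℕ} (h : Far K w x k) (hk : k' ≤ k) :
    Far K w x k' := by
  obtain ⟨y, h1, h2⟩ := h; exact ⟨y, h1, hk.trans h2⟩

lemma far_zero (K : ℝ) (w : V d → ℝ) (x : V d) : Far K w x 0 :=
  ⟨x, subset_hull _ _ rfl, Nat.zero_le _⟩

lemma nm_lt_of_not_far {K : ℝ} {w : V d → ℝ} {x : V d} {k : ℕ} (h : ¬ Far K w x k) :
    ∀ y ∈ Hull (Cl K w) {x}, nm (y - x) < k := by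
  intro y hy; by_contra hc; exact h ⟨y, hy, by omega⟩

/-- if `GG` is finite there is a largest `k` with `Far`, and `GG` controls it -/
lemma exists_rho {p : ℕ} {K : ℝ} {w : V d → ℝ} {x : V d} (h : GG p K w x ≠ ⊤) :
    ∃ ρ : ℕ, Far K w x ρ ∧ (∀ y ∈ Hull (Cl K w) {x}, nm (y - x) ≤ ρ) ∧
      (((2 * ρ + 7) ^ p : ℕ) : ℝ≥0∞) ≤ GG p K w x := by
  classical
  have h1 : ∃ k, ¬ Far K w x k := by
    by_contra hc; push Not at hc
    apply h
    unfold GG
    have h2 : ∀ k : ℕ, (1 : ℝ≥0∞) ≤ if Far K w x k then ((2 * k + 7) ^ p : ℝ≥0∞) else 0 := by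
      intro k; rw [if_pos (hc k)]
      exact one_le_pow₀ (by
        calc (1 : ℝ≥0∞) ≤ 7 := by norm_num
          _ ≤ 2 * k + 7 := le_add_self)
    have h3 := ENNReal.tsum_le_tsum h2
    rw [ENNReal.tsum_const_eq_top_of_ne_zero one_ne_zero, top_le_iff] at h3
    convert h3
  have h2 := Nat.find_spec h1
  have h3 : Nat.find h1 ≠ 0 := by
    intro h0; rw [h0] at h2; exact h2 (far_zero _ _ _)
  obtain ⟨ρ, hρ⟩ := Nat.exists_eq_succ_of_ne_zero h3
  have h4 : Far K w x ρ := by
    by_contra hc
    have := Nat.find_min' h1 hc; omega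
  refine ⟨ρ, h4, fun y hy => ?_, ?_⟩
  · have := nm_lt_of_not_far h2 y hy; omega
  · have h5 := ENNReal.le_tsum (f := fun k : ℕ => if Far K w x k then ((2 * k + 7) ^ p : ℝ≥0∞) else 0) ρ
    simp only [if_pos h4] at h5
    unfold GG
    push_cast
    convert h5

end Pool.Agent.W844.GP
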