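import Mathlib
import Pool.Agent.W844.GP.Basic

/-!
Project GP (helper844): GP-REC, the recursion for heavy paths in cubes.
-/

set_option autoImplicit false

open Finset MeasureTheory ProbabilityTheory Filter Topology
open scoped ENNReal

namespace Pool.Agent.W790.GP

open Pool.Agent.W844.VG (V stp nm)
open Pool.Agent.W844.GP

/-- invariance of the law under shifts -/
theorem law_map_sh (ν : Measure ℝ) [IsProbabilityMeasure ν] {d : ℕ} (a : V d) :
    (law ν d).map (sh a) = law ν d := by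
  have hinj : Function.Injective (fun x : V d => x + a) := fun x y h => add_right_cancel h
  exact Measure.map_infinitePi_infinitePi_of_inj (P := fun _ : V d => ν) hinj

theorem adj_sub {d : ℕ} (a x y : V d) : adj (x - a) (y - a) ↔ adj x y := by
  unfold adj
  simp

theorem isP_sub {d : ℕ} (a : V d) {l : List (V d)} (h : IsP l) : IsP (l.map fun z => z - a) := by
  refine ⟨?_, h.2.map fun x y h => sub_left_injective h⟩
  rw [List.isChain_map]
  exact h.1.imp fun x y hxy => (adj_sub a x y).2 hxy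

theorem big_sh {d : ℕ} {w : V d → ℝ} {a : V d} {R : ℕ} {c : ℝ} (h : Big w a R c) :
    Big (sh a w) 0 R c := by
  obtain ⟨l, hl, hlc, hw⟩ := h
  refine ⟨l.map fun z => z - a, isP_sub a hl, ?_, ?_⟩
  · intro z hz
    obtain ⟨z', hz', rfl⟩ := List.mem_map.1 hz
    intro j
    have := hlc z' hz' j
    simp only [Pi.sub_apply, Pi.zero_apply]
    omega
  · refine hw.trans (le_of_eq ?_)
    unfold wt sh
    rw [List.map_map]
    congr 2
    funext z
    simp

theorem law_big_le (ν : Measure ℝ) [IsProbabilityMeasure ν] {d : ℕ} (a : V d) (R : ℕ) (c : ℝ) :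
    law ν d {w | Big w a R c} ≤ law ν d {w | Big w 0 R c} := by
  have hm : Measurable (sh a : (V d → ℝ) → (V d → ℝ)) := by
    unfold sh
    fun_prop
  calc law ν d {w | Big w a R c} ≤ law ν d (sh a ⁻¹' {w | Big w 0 R c}) :=
        measure_mono fun w hw => big_sh hw
    _ ≤ (law ν d).map (sh a) {w | Big w 0 R c} := Measure.le_map_apply hm.aemeasurable _
    _ = law ν d {w | Big w 0 R c} := by rw [law_map_sh]

theorem rec_sub (hD : S_D) {d : ℕ} {K R : ℕ} (hK : 1 ≤ K) (hR : 1 ≤ R) {c : ℝ} {w : V d → ℝ}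
    (h : Big w 0 (2 * K * R) (2 ^ d * c)) (hE : ∀ i, ¬ Exc w i (2 * K * R) R) :
    ∃ q : Fin d → Fin (2 * K), Big w (fun j => (R : ℤ) * ((q j : ℕ) : ℤ)) (2 * R) c := by
  obtain ⟨l, hl, hlc, hw⟩ := h
  obtain ⟨l', hl', hdiff, hc⟩ := hD d w R (by omega) l hl (by
    intro i l' x y hsub hwb hxy
    by_contra hcon
    push Not at hcon
    apply hE i
    refine ⟨l', x, y, hwb, ?_, hxy, hcon⟩
    intro z hz
    rcases hsub with hsub | hsub
    · exact hlc z (hsub.subset hz)
    · exact hlc z (hsub.subset (List.mem_reverse.2 hz))) c hw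
  have hP : IsP l' := ⟨Pool.Agent.W844.GP.chain_infx hl.1 hl', hl'.nodup hl.2⟩
  have hcube : ∀ z ∈ l', ∀ j, 0 ≤ z j ∧ z j < ((2 * K * R : ℕ) : ℤ) := by
    intro z hz j
    have := hlc z (hl'.subset hz) j
    simpa using this
  by_cases hne : l' = []
  · subst hne
    refine ⟨fun _ => ⟨0, by omega⟩, [], ⟨List.isChain_nil, List.nodup_nil⟩, by simp, hc⟩
  · obtain ⟨z0, hz0⟩ := List.exists_mem_of_ne_nil l' hne
    have hmin : ∀ j : Fin d, ∃ m ∈ l', ∀ z ∈ l', m j ≤ z j := by
      intro j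
      obtain ⟨m, hm, hm'⟩ := Finset.exists_min_image l'.toFinset (fun z => z j)
        ⟨z0, List.mem_toFinset.2 hz0⟩
      exact ⟨m, List.mem_toFinset.1 hm, fun z hz => hm' z (List.mem_toFinset.2 hz)⟩
    choose m hm hm' using hmin
    have hRz : (0 : ℤ) < R := by exact_mod_cast hR
    have hq : ∀ j, ∃ q : Fin (2 * K), (R : ℤ) * ((q : ℕ) : ℤ) ≤ m j j ∧
        m j j < (R : ℤ) * ((q : ℕ) : ℤ) + R := by
      intro j
      obtain ⟨h0, h1⟩ := hcube (m j) (hm j) j
      have h2 : 0 ≤ m j j / R := Int.ediv_nonneg h0 hRz.le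
      have h3 : m j j / R < 2 * K := by
        rw [Int.ediv_lt_iff_lt_mul hRz]
        push_cast at h1
        exact h1
      obtain ⟨q, hq⟩ := Int.eq_ofNat_of_zero_le h2
      refine ⟨⟨q, by omega⟩, ?_, ?_⟩
      · simp only
        rw [← hq]
        exact Int.mul_ediv_self_le hRz.ne'
      · simp only
        rw [← hq]
        have := Int.lt_mul_ediv_self_add (x := m j j) hRz
        exact this
    choose q hq1 hq2 using hq
    refine ⟨q, l', hP, ?_, hc⟩
    intro z hz j
    have h1 := hm' j z hz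
    have h2 := hdiff z hz (m j) (hm j) j
    have h3 := hq1 j
    have h4 := hq2 j
    simp only
    constructor
    · linarith
    · push_cast
      linarith

theorem rec : S_D → S_REC := by
  intro hD d ν _ K R hK hR c
  have hsub : {w : V d → ℝ | Big w 0 (2 * K * R) (2 ^ d * c)} ⊆
      (⋃ i : Fin d, {w | Exc w i (2 * K * R) R}) ∪
        ⋃ q : Fin d → Fin (2 * K), {w | Big w (fun j => (R : ℤ) * ((q j : ℕ) : ℤ)) (2 * R) c} := by
    intro w hw
    by_cases hE : ∀ i, ¬ Exc w i (2 * K * R) R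
    · right
      obtain ⟨q, hq⟩ := rec_sub hD hK hR hw hE
      exact Set.mem_iUnion.2 ⟨q, hq⟩
    · left
      push Not at hE
      obtain ⟨i, hi⟩ := hE
      exact Set.mem_iUnion.2 ⟨i, hi⟩
  calc law ν d {w | Big w 0 (2 * K * R) (2 ^ d * c)}
      ≤ law ν d ((⋃ i : Fin d, {w | Exc w i (2 * K * R) R}) ∪
        ⋃ q : Fin d → Fin (2 * K), {w | Big w (fun j => (R : ℤ) * ((q j : ℕ) : ℤ)) (2 * R) c}) :=
        measure_mono hsub
    _ ≤ law ν d (⋃ i : Fin d, {w | Exc w i (2 * K * R) R}) +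
        law ν d (⋃ q : Fin d → Fin (2 * K),
          {w | Big w (fun j => (R : ℤ) * ((q j : ℕ) : ℤ)) (2 * R) c}) := measure_union_le _ _
    _ ≤ (∑ i : Fin d, law ν d {w | Exc w i (2 * K * R) R}) +
        ∑ q : Fin d → Fin (2 * K), law ν d {w | Big w (fun j => (R : ℤ) * ((q j : ℕ) : ℤ)) (2 * R) c} :=
        add_le_add (measure_iUnion_fintype_le _ _) (measure_iUnion_fintype_le _ _)
    _ ≤ (∑ i : Fin d, law ν d {w | Exc w i (2 * K * R) R}) +
        ∑ _q : Fin d → Fin (2 * K), law ν d {w | Big w 0 (2 * R) c} :=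
        add_le_add le_rfl (Finset.sum_le_sum fun q _ => law_big_le ν _ _ _)
    _ = (∑ i : Fin d, law ν d {w | Exc w i (2 * K * R) R}) +
        (2 * K) ^ d * law ν d {w | Big w 0 (2 * R) c} := by
        rw [Finset.sum_const, Finset.card_univ, Fintype.card_fun, Fintype.card_fin,
          Fintype.card_fin, nsmul_eq_mul]
        push_cast
        rfl

end Pool.Agent.W790.GP
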