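import Pool.Agent.W844.GP.Asm
import Pool.Agent.W924.GP.IND
import Pool.Agent.W347.GP.Meas
import Pool.Agent.W253.GPB.BK
import Pool.Agent.W844.GP.XDec
import Pool.Agent.W407.GP.Split
import Pool.Agent.W844.GP.XRec
import Pool.Agent.W318.GP.U2
import Pool.Agent.W978.GP.U3
import Pool.Agent.W346.GP.Pack
import Pool.Agent.W346.GP.Tail
import Pool.Agent.W948.GP.Sum
import Pool.Agent.W612.GP.Sur
import Pool.Agent.W681.GP.Run
import Pool.Agent.W789.GP.CH
import Pool.Agent.W308.GP.T3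
import Pool.Agent.W557.GP.WW
import Pool.Agent.W479.GP.Clb
import Pool.Agent.W844.GP.XClbi
import Pool.Agent.W395.GP.LD
import Pool.Agent.W683.GPC.Connect
import Pool.Agent.W672.GP.Sel
import Pool.Agent.W672.GP.Glue
import Pool.Agent.W692.GP.L1
import Pool.Agent.W346.GP.G
import Pool.Agent.W414.GP.Pos
import Pool.Agent.W347.GP.UL

/-!
# Project GP: all pieces together
-/

set_option autoImplicit false

namespace Pool.Agent.W844.GP

theorem tailT : S_TAIL := Pool.Agent.W346.GP.tail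
theorem sumT : S_SUM := Pool.Agent.W948.GP.sum Pool.Agent.W924.GP.T_IND
theorem runT : S_RUN := Pool.Agent.W681.GP.run Pool.Agent.W612.GP.sur
theorem chT : S_CH := Pool.Agent.W789.GP.S_CH_proof runT
theorem t3T : S_T3 := Pool.Agent.W308.GP.T3.main tailT sumT runT Pool.Agent.W347.GP.meas
theorem wwT : S_WW := Pool.Agent.W557.GP.ww tailT sumT Pool.Agent.W347.GP.meas
theorem clbT : S_CLB := Pool.Agent.W479.GP.clb chT wwT tailT
theorem clbiT : S_CLBI := Pool.Agent.W366.GP.clbi chT wwT tailT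
theorem ldT : S_LD := Pool.Agent.W395.GP.t_LD clbT Pool.Agent.W347.GP.meas
theorem conT : S_CON :=
  Pool.Agent.W683.GPCon.s_con Pool.Agent.W612.GP.sur tailT Pool.Agent.W347.GP.meas
theorem selT : S_SEL := Pool.Agent.W672.GP.sel Pool.Agent.W924.GP.T_INDK
theorem l1T : S_L1 :=
  Pool.Agent.W692.GP.L1 conT selT Pool.Agent.W672.GP.glue Pool.Agent.W347.GP.meas
theorem posT : S_POS := Pool.Agent.W414.GP.pos Pool.Agent.W346.GP.gg
theorem packT : S_PACK := Pool.Agent.W346.GP.pack Pool.Agent.W924.GP.T_INDK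
theorem u2T : S_U2 :=
  Pool.Agent.W318.GP.U2 (Pool.Agent.W790.GP.rec Pool.Agent.W19.GP.s_D)
    (Pool.Agent.W407.GP.split Pool.Agent.W253.GPB.bk)
theorem u3T : S_U3 := Pool.Agent.W978.GP.U3.main Pool.Agent.W253.GPB.bk
theorem uT : S_U := Pool.Agent.W347.GP.u packT u2T u3T
theorem lT : S_L := Pool.Agent.W347.GP.l l1T t3T ldT clbiT
theorem fin1T : S_FIN1 := Pool.Agent.W347.GP.fin1 t3T clbiT

theorem e2 : S_E2 := E2 (E1 uT lT fin1T) posT

end Pool.Agent.W844.GP
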