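import Pool.Agent.W844.GP.Fin

/-!
# Project GP: assembly
-/

set_option autoImplicit false

open Finset MeasureTheory ProbabilityTheory Filter Topology
open scoped ENNReal

namespace Pool.Agent.W844.GP

open Pool.Agent.W844.VG

variable {d : ℕ}

/-- upper property at level `a` -/
def PU (ν : Measure ℝ) (d : ℕ) (a : ℝ) : Prop :=
  ∀ ε : ℝ, 0 < ε → ∀ᵐ w ∂law ν d, ∀ᶠ n : ℕ in atTop, ¬ Lo w n ((a + ε) * n)

/-- lower property at level `a` -/
def PL (ν : Measure ℝ) (d : ℕ) (a : ℝ) : Prop :=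
  ∀ ε : ℝ, 0 < ε → ∀ᵐ w ∂law ν d, ∀ᶠ n : ℕ in atTop, Lo w n ((a - ε) * n)

lemma ae_add (ν : Measure ℝ) [IsProbabilityMeasure ν] (κ : ℝ) {p : (V d → ℝ) → Prop}
    (h : ∀ᵐ w ∂law (ν.map (· + κ)) d, p w) : ∀ᵐ w ∂law ν d, p (fun x => w x + κ) := by
  rw [ae_iff] at h ⊢
  rw [law_add] at h
  exact h

lemma dichotomy (hU : S_U) (hL : S_L) (hd : 2 ≤ d) (ν : Measure ℝ) [IsProbabilityMeasure ν]
    (T : ℝ) (hT : ν (Set.Ioi T) = 0) (a : ℝ) : PU ν d a ∨ PL ν d a := by
  set ν' := ν.map (· + (-a)) with hν'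
  have hT' : ν' (Set.Ioi (max (T - a) 0)) = 0 := by
    rw [hν', Measure.map_apply (by fun_prop) measurableSet_Ioi]
    refine measure_mono_null (fun x hx => ?_) hT
    have h1 : max (T - a) 0 < x + -a := hx
    have h2 := le_max_left (T - a) 0
    show T < x
    linarith
  by_cases h : ∀ (i : Fin d) (C : ℕ), Tendsto (fun t : ℕ => law ν' d {w | EE w i C t}) atTop (𝓝 0)
  · left
    intro ε hε
    have h1 := hU d ν' (max (T - a) 0) (le_max_right _ _) hT' h ε hε
    have h2 := ae_add ν (-a) h1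
    filter_upwards [h2] with w hw
    filter_upwards [hw] with n hn hc
    apply hn
    rw [lo_add]
    refine hc.mono (le_of_eq ?_)
    ring
  · right
    push Not at h
    obtain ⟨i, C, hiC⟩ := h
    have h3 : ∃ δ : ℝ, 0 < δ ∧ ∃ᶠ t : ℕ in atTop, ENNReal.ofReal δ ≤ law ν' d {w | EE w i C t} := by
      by_contra hc
      push Not at hc
      apply hiC
      rw [ENNReal.tendsto_nhds_zero]
      intro ε hε
      obtain ⟨δ, hδ, hδε⟩ : ∃ δ : ℝ, 0 < δ ∧ ENNReal.ofReal δ ≤ ε := by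
        by_cases hε' : ε = ⊤
        · exact ⟨1, one_pos, by simp [hε']⟩
        · exact ⟨ε.toReal, ENNReal.toReal_pos hε.ne' hε', by rw [ENNReal.ofReal_toReal hε']⟩
      have h4 := hc δ hδ
      filter_upwards [h4] with t ht
      exact ht.le.trans hδε
    obtain ⟨δ, hδ, hfr⟩ := h3
    intro ε hε
    have h5 := hL d i hd ν' (max (T - a) 0) δ C (le_max_right _ _) hT' hδ hfr ε hε
    have h6 := ae_add ν (-a) h5
    filter_upwards [h6] with w hw
    filter_upwards [hw] with n hn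
    rw [lo_add] at hn
    refine hn.mono (le_of_eq ?_)
    ring

lemma not_lo_of_le {w : V d → ℝ} {T : ℝ} (h : ∀ x, w x ≤ T) {n : ℕ} (hn : 1 ≤ n) {a : ℝ}
    (ha : T < a) : ¬ Lo w n (a * n) := by
  rintro ⟨l, h1, _, h3⟩
  have h4 := wt_le h l
  rw [h1] at h4
  have h5 : (0 : ℝ) < n := by exact_mod_cast hn
  have h6 : T * n < a * n := mul_lt_mul_of_pos_right ha h5
  linarith

/-- countable quantifier exchange -/
lemma ae_all_levels (ν : Measure ℝ) [IsProbabilityMeasure ν] {M : ℝ}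
    (h1 : ∀ a, a < M → ∀ᵐ w ∂law ν d, ∀ᶠ n : ℕ in atTop, Lo w n (a * n))
    (h2 : ∀ a, M < a → ∀ᵐ w ∂law ν d, ∀ᶠ n : ℕ in atTop, ¬ Lo w n (a * n)) :
    ∀ᵐ w ∂law ν d, (∀ a, a < M → ∀ᶠ n : ℕ in atTop, Lo w n (a * n)) ∧
      (∀ a, M < a → ∀ᶠ n : ℕ in atTop, ¬ Lo w n (a * n)) := by
  have h3 : ∀ᵐ w ∂law ν d, ∀ q : ℚ, (q : ℝ) < M → ∀ᶠ n : ℕ in atTop, Lo w n (q * n) := by
    rw [ae_all_iff]; intro q
    by_cases hq : (q : ℝ) < M
    · filter_upwards [h1 q hq] with w hw _; exact hw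
    · exact Eventually.of_forall fun w hc => absurd hc hq
  have h4 : ∀ᵐ w ∂law ν d, ∀ q : ℚ, M < (q : ℝ) → ∀ᶠ n : ℕ in atTop, ¬ Lo w n (q * n) := by
    rw [ae_all_iff]; intro q
    by_cases hq : M < (q : ℝ)
    · filter_upwards [h2 q hq] with w hw _; exact hw
    · exact Eventually.of_forall fun w hc => absurd hc hq
  filter_upwards [h3, h4] with w hw3 hw4
  constructor
  · intro a ha
    obtain ⟨q, hq1, hq2⟩ := exists_rat_btwn ha
    filter_upwards [hw3 q hq2] with n hn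
    exact hn.mono (mul_le_mul_of_nonneg_right hq1.le (Nat.cast_nonneg n))
  · intro a ha
    obtain ⟨q, hq1, hq2⟩ := exists_rat_btwn ha
    filter_upwards [hw4 q hq1] with n hn hc
    exact hn (hc.mono (mul_le_mul_of_nonneg_right hq2.le (Nat.cast_nonneg n)))

theorem E1 (hU : S_U) (hL : S_L) (hF : S_FIN1) : S_E1 := by
  intro d hd ν _ T hT
  obtain ⟨b, hb⟩ := hF d hd ν T hT
  have hTU : PU ν d T := by
    intro ε hε
    filter_upwards [ae_le (d := d) hT] with w hw
    filter_upwards [eventually_ge_atTop 1] with n hn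
    exact not_lo_of_le hw hn (by linarith)
  have hbb : ∀ a, PU ν d a → b ≤ a := by
    intro a ha
    by_contra hc
    push Not at hc
    have h1 := ha ((b - a)) (by linarith)
    have h2 : ∀ᵐ w ∂law ν d, False := by
      filter_upwards [h1, hb] with w hw1 hw2
      obtain ⟨n, hn1, hn2⟩ := (hw1.and hw2).exists
      apply hn1
      have : a + (b - a) = b := by ring
      rw [this]; exact hn2
    rw [ae_iff] at h2
    simp at h2
  set S : Set ℝ := {a | PU ν d a} with hS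
  have hSne : S.Nonempty := ⟨T, hTU⟩
  have hSb : BddBelow S := ⟨b, fun a ha => hbb a ha⟩
  refine ⟨sInf S, ae_all_levels ν ?_ ?_⟩
  · intro a ha
    obtain ⟨c, hc1, hc2⟩ := exists_between ha
    have h1 : ¬ PU ν d c := fun hc => absurd (csInf_le hSb hc) (not_le.mpr hc2)
    have h2 : PL ν d c := (dichotomy hU hL hd ν T hT c).resolve_left h1
    have h3 := h2 (c - a) (by linarith)
    have h4 : c - (c - a) = a := by ring
    rw [h4] at h3; exact h3
  · intro a ha
    obtain ⟨c, hc1, hc2⟩ := exists_lt_of_csInf_lt hSne ha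
    have h3 := hc1 (a - c) (by linarith)
    have h4 : c + (a - c) = a := by ring
    rw [h4] at h3; exact h3

lemma ae_min (ν : Measure ℝ) [IsProbabilityMeasure ν] (T : ℝ) {p : (V d → ℝ) → Prop}
    (h : ∀ᵐ w ∂law (ν.map (fun x => min x T)) d, p w) :
    ∀ᵐ w ∂law ν d, p (fun x => min (w x) T) := by
  rw [← law_map ν (f := fun x => min x T) (by fun_prop)] at h
  have hm : Measurable fun (w : V d → ℝ) (x : V d) => min (w x) T := by fun_prop
  exact ae_of_ae_map hm.aemeasurable h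

lemma lo_of_lo_min {w : V d → ℝ} {T : ℝ} {n : ℕ} {a : ℝ}
    (h : Lo (fun x => min (w x) T) n a) : Lo w n a := by
  obtain ⟨l, h1, h2, h3⟩ := h
  refine ⟨l, h1, h2, h3.trans ?_⟩
  unfold wt
  exact List.sum_le_sum fun x _ => min_le_left _ _

lemma wt_min_add (w : V d → ℝ) (T : ℝ) (l : List (V d)) :
    wt w l = wt (fun x => min (w x) T) l + wt (fun x => max (w x - T) 0) l := by
  induction l with
  | nil => simp
  | cons x l ih =>
    simp only [wt_cons, ih]
    have : w x = min (w x) T + max (w x - T) 0 := by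
      rcases le_total (w x) T with h | h
      · rw [min_eq_left h, max_eq_right (by linarith)]; ring
      · rw [min_eq_right h, max_eq_left (by linarith)]; ring
    linarith

theorem E2 (hE : S_E1) (hP : S_POS) : S_E2 := by
  intro d hd ν _ α hα hmom
  have hk : ∀ k : ℕ, ∃ M : ℝ, ∀ᵐ w ∂law ν d,
      (∀ a, a < M → ∀ᶠ n : ℕ in atTop, Lo (fun x => min (w x) k) n (a * n)) ∧
      (∀ a, M < a → ∀ᶠ n : ℕ in atTop, ¬ Lo (fun x => min (w x) k) n (a * n)) := by
    intro k
    have : IsProbabilityMeasure (ν.map (fun x => min x (k : ℝ))) :=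
      Measure.isProbabilityMeasure_map (by fun_prop)
    obtain ⟨M, hM⟩ := hE d hd (ν.map (fun x => min x (k : ℝ))) k (by
      rw [Measure.map_apply (by fun_prop) measurableSet_Ioi]
      convert measure_empty (μ := ν)
      ext x; simp)
    exact ⟨M, ae_min ν k hM⟩
  choose M hM using hk
  -- comparison
  have hcmp : ∀ ε : ℝ, 0 < ε → ∃ k0 : ℕ, ∀ k, k0 ≤ k → ∀ a : ℝ,
      (∀ᵐ w ∂law ν d, ∀ᶠ n : ℕ in atTop, Lo w n (a * n) →
        Lo (fun x => min (w x) k) n ((a - ε) * n)) := by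
    intro ε hε
    obtain ⟨T0, hT0⟩ := hP d (by omega) ν α hα hmom ε hε
    refine ⟨⌈T0⌉₊, fun k hk a => ?_⟩
    have h1 := hT0 k ((Nat.le_ceil T0).trans (by exact_mod_cast hk))
    filter_upwards [h1] with w hw
    filter_upwards [hw] with n hn
    rintro ⟨l, h2, h3, h4⟩
    refine ⟨l, h2, h3, ?_⟩
    have h5 := hn l h2 h3
    have h6 := wt_min_add w k l
    linarith
  have hex : ∀ {p : (V d → ℝ) → Prop}, (∀ᵐ w ∂law ν d, p w) → ∃ w, p w := by
    intro p hp
    exact hp.exists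
  have hmono : Monotone M := by
    intro k k' hkk'
    by_contra hc
    push Not at hc
    obtain ⟨a, ha1, ha2⟩ := exists_between hc
    have h1 : ∀ᵐ w ∂law ν d, False := by
      filter_upwards [hM k, hM k'] with w hw hw'
      obtain ⟨n, hn1, hn2⟩ := ((hw.1 a ha2).and (hw'.2 a ha1)).exists
      apply hn2
      obtain ⟨l, h1, h2, h3⟩ := hn1
      refine ⟨l, h1, h2, h3.trans ?_⟩
      unfold wt
      refine List.sum_le_sum fun x _ => min_le_min_left _ (by exact_mod_cast hkk')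
    rw [ae_iff] at h1; simp at h1
  have hcau : ∀ ε : ℝ, 0 < ε → ∃ k0 : ℕ, ∀ k, k0 ≤ k → ∀ k', M k' ≤ M k + ε := by
    intro ε hε
    obtain ⟨k0, hk0⟩ := hcmp ε hε
    refine ⟨k0, fun k hk k' => ?_⟩
    by_contra hc
    push Not at hc
    obtain ⟨a, ha1, ha2⟩ := exists_between hc
    have h1 : ∀ᵐ w ∂law ν d, False := by
      filter_upwards [hM k, hM k', hk0 k hk a] with w hw hw' hcw
      obtain ⟨n, hn1, hn2, hn3⟩ :=
        ((hw.2 (a - ε) (by linarith)).and ((hw'.1 a ha2).and hcw)).exists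
      exact hn1 (hn3 (lo_of_lo_min hn2))
    rw [ae_iff] at h1; simp at h1
  have hbdd : BddAbove (Set.range M) := by
    obtain ⟨k0, hk0⟩ := hcau 1 one_pos
    exact ⟨M k0 + 1, by rintro _ ⟨k', rfl⟩; exact hk0 k0 le_rfl k'⟩
  refine ⟨⨆ k, M k, ae_all_levels ν ?_ ?_⟩
  · intro a ha
    obtain ⟨k, hk⟩ := exists_lt_of_lt_ciSup ha
    filter_upwards [hM k] with w hw
    filter_upwards [hw.1 a hk] with n hn
    exact lo_of_lo_min hn
  · intro a ha
    obtain ⟨k0, hk0⟩ := hcmp ((a - ⨆ k, M k) / 2) (by linarith)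
    have h2 : M k0 < a - (a - ⨆ k, M k) / 2 := by
      have := le_ciSup hbdd k0
      linarith
    filter_upwards [hM k0, hk0 k0 le_rfl a] with w hw hcw
    filter_upwards [hw.2 _ h2, hcw] with n hn1 hn2 hc
    exact hn1 (hn2 hc)

set_option maxHeartbeats 4000000 in
/-- the frozen statement -/
theorem frozen (hE : S_E2) :
    ∀ (d : ℕ), 2 ≤ d →
    ∀ (Ω : Type) [MeasurableSpace Ω] (P : Measure Ω) [IsProbabilityMeasure P]
      (X : (Fin d → ℤ) → Ω → ℝ),
      (∀ v, Measurable (X v)) →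
      iIndepFun X P →
      (∀ v, IdentDistrib (X v) (X 0) P P) →
      (∃ α : ℝ, 0 < α ∧
        ∫⁻ ω, ENNReal.ofReal ((max (X 0 ω) 0) ^ d *
          (max (Real.log (max (X 0 ω) 0)) 0) ^ ((d : ℝ) + α)) ∂P < ⊤) →
      ∃ M : ℝ, ∀ᵐ ω ∂P,
        Tendsto
          (fun n : ℕ =>
            (⨆ p : {p : Fin (n + 1) → (Fin d → ℤ) //
                p 0 = 0 ∧ Function.Injective p ∧
                ∀ i : Fin n, ∑ j, |p i.succ j - p i.castSucc j| = 1},
              ∑ i : Fin n, X (p.1 i.succ) ω) / (n : ℝ))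
          atTop (𝓝 M) := by
  intro d hd Ω _ P _ X hX hind hid ⟨α, hα, hmom⟩
  set ν : Measure ℝ := P.map (X 0) with hν
  have : IsProbabilityMeasure ν := Measure.isProbabilityMeasure_map (hX 0).aemeasurable
  have hlaw : P.map (fun ω v => X v ω) = law ν d := by
    rw [hind.map_fun_eq_infinitePi_map hX]
    unfold law
    congr 1
    funext v
    exact (hid v).map_eq
  have hmom' : ∫⁻ x, ENNReal.ofReal ((max x 0) ^ d *
      (max (Real.log (max x 0)) 0) ^ ((d : ℝ) + α)) ∂ν < ⊤ := by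
    have hm : Measurable fun x : ℝ => ENNReal.ofReal ((max x 0) ^ d *
      (max (Real.log (max x 0)) 0) ^ ((d : ℝ) + α)) := by fun_prop
    rw [hν, lintegral_map hm (hX 0)]
    exact hmom
  obtain ⟨M, hM⟩ := hE d hd ν α hα hmom'
  refine ⟨M, ?_⟩
  rw [← hlaw] at hM
  have hm : Measurable fun (ω : Ω) (v : V d) => X v ω := measurable_pi_iff.mpr hX
  have h1 := ae_of_ae_map hm.aemeasurable hM
  filter_upwards [h1] with ω hω
  exact tendsto_of_lo (w := fun v => X v ω) (by omega) hω.1 hω.2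

end Pool.Agent.W844.GP
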