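import Pool.Agent.W844.GP.L1

/-!
# Project GP part 2: dimension one
-/

set_option autoImplicit false

open Finset MeasureTheory ProbabilityTheory Filter Topology
open scoped ENNReal

namespace Pool.Agent.W844.GP

open Pool.Agent.W844.VG

theorem d1_neg (h : S_D1) : ∃ P : Measure ((Fin 1 → ℤ) → ℝ), IsProbabilityMeasure P ∧
    iIndepFun (fun (v : Fin 1 → ℤ) (w : (Fin 1 → ℤ) → ℝ) => w v) P ∧
    (∀ v : Fin 1 → ℤ, IdentDistrib (fun w : (Fin 1 → ℤ) → ℝ => w v) (fun w => w 0) P P) ∧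
    (∀ᵐ w ∂P, w 0 ≤ 0) ∧
    ∫⁻ t in Set.Ioi (0 : ℝ), P {w | w 0 < -t} ^ 2 < ⊤ ∧
    ∀ M : ℝ, ¬ Tendsto (fun n : ℕ => ∫⁻ w, ENNReal.ofReal |greedy 1 w n / n - M| ∂P)
      atTop (𝓝 0) := by
  obtain ⟨ν, hν, h0, hI, hL⟩ := h
  refine ⟨law ν 1, inferInstance, ?_, ?_, ?_, ?_, ?_⟩
  · exact iIndepFun_infinitePi (P := fun _ : V 1 => ν) (X := fun _ x => x) fun _ => measurable_id
  · intro v
    refine ⟨(measurable_pi_apply v).aemeasurable, (measurable_pi_apply 0).aemeasurable, ?_⟩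
    have h1 := Measure.infinitePi_map_eval (fun _ : V 1 => ν) v
    have h2 := Measure.infinitePi_map_eval (fun _ : V 1 => ν) 0
    exact h1.trans h2.symm
  · filter_upwards [ae_le (d := 1) h0] with w hw using hw 0
  · have h1 : ∀ t : ℝ, law ν 1 {w | w 0 < -t} = ν (Set.Iio (-t)) := fun t =>
      law_eval ν 0 measurableSet_Iio
    simp_rw [h1]; exact hI
  · intro M hM
    have h1 : ∀ᵐ w ∂law ν 1, 1 ≤ liminf (fun n : ℕ =>
        ENNReal.ofReal |greedy 1 w n / n - M|) atTop := by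
      filter_upwards [hL (M - 1)] with w hw
      refine le_liminf_of_le (by isBoundedDefault) ?_
      filter_upwards [hw, eventually_ge_atTop 1] with n hn hn1
      rw [lo_iff' le_rfl, not_le] at hn
      have hn0 : (0 : ℝ) < n := by exact_mod_cast hn1
      have h2 : greedy 1 w n / n < M - 1 := by rwa [div_lt_iff₀ hn0]
      rw [← ENNReal.ofReal_one]
      apply ENNReal.ofReal_le_ofReal
      rw [abs_of_neg (by linarith)]
      linarith
    have h3 : ∫⁻ w, liminf (fun n : ℕ => ENNReal.ofReal |greedy 1 w n / n - M|) atTop ∂law ν 1 ≤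
        liminf (fun n : ℕ => ∫⁻ w, ENNReal.ofReal |greedy 1 w n / n - M| ∂law ν 1) atTop := by
      refine lintegral_liminf_le fun n => ?_
      have := measurable_greedy (d := 1) le_rfl n
      exact ENNReal.measurable_ofReal.comp (continuous_abs.measurable.comp
        ((this.div_const (n : ℝ)).sub_const M))
    rw [hM.liminf_eq] at h3
    have h4 : (1 : ℝ≥0∞) ≤
        ∫⁻ w, liminf (fun n : ℕ => ENNReal.ofReal |greedy 1 w n / n - M|) atTop ∂law ν 1 := by
      calc (1 : ℝ≥0∞) = ∫⁻ _ : V 1 → ℝ, 1 ∂law ν 1 := by simp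
        _ ≤ _ := lintegral_mono_ae h1
    exact absurd (h4.trans h3) (by simp)

end Pool.Agent.W844.GP
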