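import Pool.Agent.W844.GP.Basic

/-!
# Project GP part 2 (MP_18bc13_pr): convergence in L1
-/

set_option autoImplicit false

open Finset MeasureTheory ProbabilityTheory Filter Topology
open scoped ENNReal

namespace Pool.Agent.W844.GP

open Pool.Agent.W844.VG (V stp nm)

variable {d : ℕ}

/-- supremum over the `n`-step self-avoiding paths from the origin (origin not counted) -/
noncomputable def SupP (f : V d → ℝ≥0∞) (n : ℕ) : ℝ≥0∞ :=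
  ⨆ l : {l : List (V d) // l.length = n ∧ IsP (0 :: l)}, (l.1.map f).sum

open scoped Classical in
/-- expected maximal number of vertices with weight `> s` on an `n`-step path -/
def S_GE : Prop := ∀ d : ℕ, 1 ≤ d → ∃ C : ℝ, 0 < C ∧ ∀ (ν : Measure ℝ) [IsProbabilityMeasure ν]
  (s : ℝ) (n : ℕ), 1 ≤ n →
  ∫⁻ w, SupP (fun z : V d => if s < w z then 1 else 0) n ∂law ν d ≤
    ENNReal.ofReal (C * (n * ν.real (Set.Ioi s) ^ ((1 : ℝ) / d)))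

def S_POSE : Prop := ∀ d : ℕ, 1 ≤ d → ∀ (ν : Measure ℝ) [IsProbabilityMeasure ν] (α : ℝ), 0 < α →
  ∫⁻ x, ENNReal.ofReal ((max x 0) ^ d * (max (Real.log (max x 0)) 0) ^ ((d : ℝ) + α)) ∂ν < ⊤ →
  ∀ ε : ℝ, 0 < ε → ∃ T0 : ℝ, 0 ≤ T0 ∧ ∀ T, T0 ≤ T → ∀ n : ℕ, 1 ≤ n →
    ∫⁻ w, SupP (fun z : V d => ENNReal.ofReal (w z - T)) n ∂law ν d ≤ ENNReal.ofReal (ε * n)

/-- escape from the origin along the axis in direction `i` -/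
def S_ESC : Prop := ∀ (d : ℕ) (i : Fin d), 2 ≤ d → ∀ (w : V d → ℝ) (K : ℝ) (R : ℕ), 0 ≤ K →
  (∀ m : ℕ, R < m → pt i m ∈ Cl K w → ¬ Far K w (pt i m) (m - 3)) →
  ∀ n : ℕ, Lo w n (-(∑ m ∈ Icc 1 R, max (-(w (pt i m))) 0) - K * n)

/-- conditional independence of the size given the set of closed vertices -/
def S_COND : Prop := ∀ (d : ℕ) (ν : Measure ℝ) [IsProbabilityMeasure ν] (K s : ℝ), K ≤ s →
  ∀ (F : Finset (V d)) (B : Set (V d → ℝ)), MeasurableSet B →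
  (∀ w w' : V d → ℝ, Cl K w = Cl K w' → (w ∈ B ↔ w' ∈ B)) →
  law ν d (B ∩ {w | ∀ v ∈ F, w v < -s}) * ν (Set.Iio (-K)) ^ F.card ≤
    law ν d B * ν (Set.Iio (-s)) ^ F.card

/-- integrable lower bound -/
def S_LOW1 : Prop := ∀ (d : ℕ), 2 ≤ d → ∀ (ν : Measure ℝ) [IsProbabilityMeasure ν],
  ∫⁻ t in Set.Ioi (0 : ℝ), ν (Set.Iio (-t)) ^ (2 * d) < ⊤ →
  ∃ (K : ℝ) (Z : (V d → ℝ) → ℝ≥0∞), 0 ≤ K ∧ Measurable Z ∧ ∫⁻ w, Z w ∂law ν d < ⊤ ∧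
    ∀ᵐ w ∂law ν d, ∀ n : ℕ, Lo w n (-((Z w).toReal) - K * n)

/-- the one-dimensional counterexample -/
def S_D1 : Prop := ∃ ν : Measure ℝ, IsProbabilityMeasure ν ∧ ν (Set.Ioi 0) = 0 ∧
  ∫⁻ t in Set.Ioi (0 : ℝ), ν (Set.Iio (-t)) ^ 2 < ⊤ ∧
  ∀ a : ℝ, ∀ᵐ w ∂law ν 1, ∀ᶠ n : ℕ in atTop, ¬ Lo w n (a * n)

end Pool.Agent.W844.GP
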