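import Pool.Agent.W844.GP.Defs2
import Pool.Agent.W612.GP.Sur

/-!
# Project GP part 2: escape along an axis
-/

set_option autoImplicit false

open Finset MeasureTheory ProbabilityTheory Filter Topology
open scoped ENNReal

namespace Pool.Agent.W844.GP

open Pool.Agent.W844.VG

variable {d : ℕ}

lemma hull_subset_of_cl {K : ℝ} {w : V d → ℝ} {x y : V d}
    (h : y ∈ Hull (Cl K w) {x}) : y = x ∨ y ∈ Cl K w := by
  obtain ⟨x', hx', hxy⟩ := h
  have hx'' : x' = x := hx'
  subst hx''
  rcases Relation.ReflTransGen.cases_tail hxy with h | ⟨z, _, hz, _⟩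
  · left; exact h.symm ▸ rfl
  · right; exact hz

lemma sum_bound {w g : V d → ℝ} {K : ℝ} {l : List (V d)} (h : ∀ z ∈ l, -(g z) - K ≤ w z) :
    -(l.map g).sum - K * l.length ≤ wt w l := by
  induction l with
  | nil => simp
  | cons x l ih =>
    have h4 := h x (by simp)
    have h5 := ih (fun z hz => h z (by simp [hz]))
    simp only [List.map_cons, List.sum_cons, wt_cons, List.length_cons]
    push_cast
    linarith

theorem esc : S_ESC := by
  intro d i hd w K R hK hfar n
  classical
  set N : ℕ := max n R + 1 with hN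
  have hnN : n ≤ N := by omega
  have hRN : R ≤ N := by omega
  set w' : V d → ℝ := fun x => if x i ≤ N then w x else 0 with hw'
  have hcl : ∀ x, x ∈ Cl K w' → x i ≤ N ∧ x ∈ Cl K w := by
    intro x hx
    have hx' : w' x < -K := hx
    by_cases h : x i ≤ N
    · simp only [hw', if_pos h] at hx'; exact ⟨h, hx'⟩
    · simp only [hw', if_neg h] at hx'; linarith
  set D : Set (V d) := {x | ∃ m : ℕ, R < m ∧ m ≤ N ∧ x = pt i m ∧ x ∈ Cl K w'} with hD
  set A : Set (V d) := Hull (Cl K w') D with hA
  have hball : ∀ y ∈ A, y ∈ Cl K w' ∧ ∃ m : ℕ, R < m ∧ m ≤ N ∧ nm (y - pt i m) < m - 3 := by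
    intro y hy
    rw [hA, hull_eq_biUnion] at hy
    simp only [Set.mem_iUnion] at hy
    obtain ⟨x, ⟨m, h1, h2, rfl, h4⟩, hyx⟩ := hy
    refine ⟨?_, m, h1, h2, ?_⟩
    · rcases hull_subset_of_cl hyx with h | h
      · rw [h]; exact h4
      · exact h
    · have h5 := hfar m h1 (hcl _ h4).2
      exact nm_lt_of_not_far h5 y (hull_mono (fun z hz => (hcl z hz).2) subset_rfl hyx)
  have hAfin : A.Finite := by
    refine (finite_ball (0 : V d) (2 * N)).subset fun y hy => ?_
    obtain ⟨_, m, h1, h2, h3⟩ := hball y hy
    show nm (y - 0) ≤ 2 * N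
    rw [sub_zero]
    have h4 := nm_le_add y (pt i (m : ℤ))
    rw [nm_pt] at h4
    simp at h4
    omega
  have hht : ∀ a ∈ A, (0 : V d) i < a i ∧ a i < (pt i ((N + 5 : ℕ) : ℤ) : V d) i := by
    intro a ha
    obtain ⟨hc, m, h1, h2, h3⟩ := hball a ha
    rw [pt_same]
    have h4 := abs_le_nm (a - pt i (m : ℤ)) i
    simp only [Pi.sub_apply, pt_same] at h4
    have h5 := neg_abs_le (a i - (m : ℤ))
    have h6 := (hcl _ hc).1
    constructor
    · show (0 : ℤ) < a i
      omega
    · push_cast; omega
  have hsb := sb_line i 0 (N + 5)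
  rw [pt_zero, zero_add] at hsb
  obtain ⟨l', h1, h2, h3⟩ := Pool.Agent.W612.GP.sur d i hd A hAfin 0 (pt i ((N + 5 : ℕ) : ℤ))
    (line i 0 (N + 5)) hsb.1.1 hsb.2.1 hht
  -- length of l'
  have hlen : n ≤ l'.length := by
    have h4 : pt i ((N + 5 : ℕ) : ℤ) ∈ (0 : V d) :: l' := List.mem_of_getLast? h2
    rcases List.mem_cons.mp h4 with h4 | h4
    · have := congrFun h4 i
      simp at this; omega
    · have h5 := nm_le_of_chain h1.1 _ h4
      rw [sub_zero, nm_pt] at h5
      simp at h5; omega
  refine ⟨l'.take n, by simp [hlen], ?_, ?_⟩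
  · exact h1.prefx (by rw [List.prefix_cons_inj]; exact List.take_prefix n l')
  · set l := l'.take n with hl
    have hPl : IsP (0 :: l) := h1.prefx (by rw [List.prefix_cons_inj]; exact List.take_prefix n l')
    have hll : l.length = n := by simp [hl, hlen]
    have hsub : ∀ z ∈ l, z ∈ l' := fun z hz => List.mem_of_mem_take hz
    have hheight : ∀ z ∈ l, z i ≤ N := by
      intro z hz
      have h5 := nm_le_of_chain hPl.1 z hz
      rw [sub_zero, hll] at h5
      have h6 := abs_le_nm z i
      have h7 := le_abs_self (z i)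
      omega
    have hnd : l.Nodup := (hPl.suffix (List.suffix_cons _ _)).nodup
    -- pointwise bound
    set I : Finset (V d) := (Icc 1 R).image (fun m : ℕ => (pt i (m : ℤ) : V d)) with hI
    set g : V d → ℝ := fun z => if z ∈ I then max (-(w z)) 0 else 0
      with hg
    have hpt : ∀ z ∈ l, -(g z) - K ≤ w z := by
      intro z hz
      have hz' : z ∈ (0 : V d) :: l' := List.mem_cons_of_mem _ (hsub z hz)
      obtain ⟨h4, h5⟩ := h3 z hz'
      have hz0 : z ≠ 0 := by
        intro hc
        have := hPl.2
        rw [List.nodup_cons] at this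
        exact this.1 (hc ▸ hz)
      by_cases hc : z ∈ I
      · simp only [hg, if_pos hc]
        have := le_max_left (-(w z)) 0
        linarith
      · simp only [hg, if_neg hc]
        have hopen : z ∉ Cl K w' := by
          rcases h5 with h5 | h5
          · rcases List.mem_cons.mp h5 with h5 | h5
            · exact absurd h5 hz0
            · rw [mem_line] at h5
              obtain ⟨k, hk1, hk2, rfl⟩ := h5
              intro hcl'
              have h6 := (hcl _ hcl').1
              rw [pt_same] at h6
              by_cases hkR : k ≤ R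
              · apply hc
                rw [hI, mem_image]
                refine ⟨k.toNat, ?_, ?_⟩
                · rw [mem_Icc]; omega
                · congr 1; omega
              · apply h4
                apply subset_hull
                refine ⟨k.toNat, by omega, by omega, ?_, hcl'⟩
                congr 1; omega
          · exact notMem_of_nb h4 h5
        have h6 : ¬ (w' z < -K) := hopen
        simp only [hw', if_pos (hheight z hz)] at h6
        linarith
    have hsum : -(l.map g).sum - K * n ≤ wt w l := by
      rw [← hll]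
      exact sum_bound hpt
    have hg2 : (l.map g).sum ≤ ∑ m ∈ Icc 1 R, max (-(w (pt i ((m : ℕ) : ℤ)))) 0 := by
      have e1 : (l.map g).sum = ∑ z ∈ l.toFinset, g z := by rw [List.sum_toFinset g hnd]
      rw [e1]
      have e2 : ∑ z ∈ l.toFinset, g z ≤ ∑ z ∈ I, max (-(w z)) 0 := by
        have e3 : ∑ z ∈ l.toFinset, g z = ∑ z ∈ l.toFinset.filter (· ∈ I), max (-(w z)) 0 := by
          rw [sum_filter]
        rw [e3]
        refine sum_le_sum_of_subset_of_nonneg ?_ (fun z _ _ => le_max_right _ _)
        intro z hz
        rw [mem_filter] at hz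
        exact hz.2
      refine e2.trans ?_
      rw [sum_image]
      intro a _ b _ hab
      have := congrFun hab i
      simpa using this
    linarith

end Pool.Agent.W844.GP
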