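import Pool.Agent.W844.GP.Basic

/-!
# Project GP: the frozen form of `M_n`
-/

set_option autoImplicit false

open Finset MeasureTheory ProbabilityTheory Filter Topology
open scoped ENNReal

namespace Pool.Agent.W844.GP

open Pool.Agent.W844.VG

variable {d : ℕ}

/-- the index type of the frozen statement -/
abbrev PI (d n : ℕ) : Type := {p : Fin (n + 1) → (Fin d → ℤ) //
  p 0 = 0 ∧ Function.Injective p ∧ ∀ i : Fin n, ∑ j, |p i.succ j - p i.castSucc j| = 1}

lemma isP_ofFn {n : ℕ} (p : Fin (n + 1) → V d) :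
    IsP (List.ofFn p) ↔ Function.Injective p ∧
      ∀ i : Fin n, ∑ j, |p i.succ j - p i.castSucc j| = 1 := by
  unfold IsP
  rw [List.nodup_ofFn, List.isChain_ofFn, and_comm]
  refine and_congr_right fun _ => ?_
  constructor
  · intro h i
    exact h i.1 (by omega)
  · intro h i hi
    exact h ⟨i, by omega⟩

instance finite_PI (n : ℕ) : Finite (PI d n) := by
  have hf : (Set.pi Set.univ fun _ : Fin (n + 1) => {x : V d | nm (x - 0) ≤ n}).Finite :=
    Set.Finite.pi fun _ => finite_ball 0 n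
  refine (hf.subset ?_).to_subtype
  rintro p ⟨h0, hinj, hadj⟩ k _
  have h1 : IsP (List.ofFn p) := (isP_ofFn p).mpr ⟨hinj, hadj⟩
  rw [List.ofFn_succ, h0] at h1
  show nm (p k - 0) ≤ n
  rcases Fin.eq_zero_or_eq_succ k with rfl | ⟨j, rfl⟩
  · rw [h0]; simp
  · have h2 := nm_le_of_chain h1.1 (p j.succ) (by
      rw [List.mem_ofFn]; exact ⟨j, rfl⟩)
    rw [List.length_ofFn] at h2
    exact h2

lemma wt_ofFn (w : V d → ℝ) {n : ℕ} (p : Fin n → V d) :
    wt w (List.ofFn p) = ∑ i : Fin n, w (p i) := by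
  unfold wt
  rw [List.map_ofFn, List.sum_ofFn]; rfl

theorem lo_iff (hd : 1 ≤ d) (w : V d → ℝ) (n : ℕ) (a : ℝ) :
    Lo w n a ↔ a ≤ ⨆ p : PI d n, ∑ i : Fin n, w (p.1 i.succ) := by
  have : Nonempty (PI d n) := by
    refine ⟨⟨fun k => pt ⟨0, hd⟩ (k : ℕ), by simp, ?_, ?_⟩⟩
    · intro k k' h
      have := congrFun h ⟨0, hd⟩
      simp only [pt_same] at this
      exact Fin.ext (by exact_mod_cast this)
    · intro i
      have : adj (pt (⟨0, hd⟩ : Fin d) ((i.castSucc : Fin (n + 1)) : ℕ))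
          (pt (⟨0, hd⟩ : Fin d) ((i.succ : Fin (n + 1)) : ℕ)) := by
        have h : (((i.succ : Fin (n + 1)) : ℕ) : ℤ) = (((i.castSucc : Fin (n + 1)) : ℕ) : ℤ) + 1 := by
          simp
        rw [h, pt_add, pt_one]; exact adj_stp _ _
      exact this
  constructor
  · rintro ⟨l, hl, hP, ha⟩
    subst hl
    refine ha.trans ?_
    have h1 : (0 : V d) :: l = List.ofFn (fun k : Fin (l.length + 1) => ((0 : V d) :: l)[k.1]) := by
      exact (List.ofFn_getElem).symm
    rw [h1, isP_ofFn] at hP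
    let p : PI d l.length := ⟨_, by simp, hP.1, hP.2⟩
    have h2 : wt w l = ∑ i : Fin l.length, w (p.1 i.succ) := by
      rw [← wt_ofFn w fun i : Fin l.length => p.1 i.succ]
      congr 1
      exact (List.ofFn_getElem (xs := l)).symm
    rw [h2]
    exact le_ciSup (f := fun p : PI d l.length => ∑ i : Fin l.length, w (p.1 i.succ))
      (Set.finite_range _).bddAbove p
  · intro ha
    obtain ⟨p, hp⟩ := exists_eq_ciSup_of_finite (f := fun p : PI d n => ∑ i : Fin n, w (p.1 i.succ))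
    refine ⟨List.ofFn fun i : Fin n => p.1 i.succ, by simp, ?_, ?_⟩
    · have := (isP_ofFn p.1).mpr ⟨p.2.2.1, p.2.2.2⟩
      rwa [List.ofFn_succ, p.2.1] at this
    · rw [wt_ofFn]; rw [← hp] at ha; exact ha

/-- from the a.s. statement on the canonical space to the frozen conclusion -/
theorem tendsto_of_lo (hd : 1 ≤ d) {w : V d → ℝ} {M : ℝ}
    (h1 : ∀ a, a < M → ∀ᶠ n : ℕ in atTop, Lo w n (a * n))
    (h2 : ∀ a, M < a → ∀ᶠ n : ℕ in atTop, ¬ Lo w n (a * n)) :
    Tendsto (fun n : ℕ => (⨆ p : PI d n, ∑ i : Fin n, w (p.1 i.succ)) / (n : ℝ)) atTop (𝓝 M) := by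
  rw [tendsto_order]
  constructor
  · intro a ha
    obtain ⟨b, hb1, hb2⟩ := exists_between ha
    filter_upwards [h1 b hb2, eventually_ge_atTop 1] with n hn hn1
    rw [lo_iff hd] at hn
    have : (0 : ℝ) < n := by exact_mod_cast hn1
    rw [lt_div_iff₀ this]
    exact lt_of_lt_of_le (mul_lt_mul_of_pos_right hb1 this) hn
  · intro a ha
    filter_upwards [h2 a ha, eventually_ge_atTop 1] with n hn hn1
    rw [lo_iff hd, not_le] at hn
    have : (0 : ℝ) < n := by exact_mod_cast hn1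
    rw [div_lt_iff₀ this]
    exact hn

end Pool.Agent.W844.GP
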