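import Pool.Agent.W844.GP.Defs2
import Pool.Agent.W844.GP.Asm
import Pool.Agent.W347.GP.Meas

/-!
# Project GP part 2: L1 convergence, assembly
-/

set_option autoImplicit false

open Finset MeasureTheory ProbabilityTheory Filter Topology
open scoped ENNReal

namespace Pool.Agent.W844.GP

open Pool.Agent.W844.VG

variable {d : ℕ}

/-- the greedy value of `n`-step paths -/
noncomputable def greedy (d : ℕ) (x : (Fin d → ℤ) → ℝ) (n : ℕ) : ℝ :=
  ⨆ p : {p : Fin (n + 1) → (Fin d → ℤ) //
      p 0 = 0 ∧ Function.Injective p ∧ ∀ i : Fin n, ∑ j, |p i.succ j - p i.castSucc j| = 1},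
    ∑ i : Fin n, x (p.1 i.succ)

lemma lo_iff' (hd : 1 ≤ d) (w : V d → ℝ) (n : ℕ) (a : ℝ) : Lo w n a ↔ a ≤ greedy d w n :=
  lo_iff hd w n a

lemma measurable_greedy (hd : 1 ≤ d) (n : ℕ) : Measurable fun w : V d → ℝ => greedy d w n := by
  refine measurable_of_Ici fun a => ?_
  have h := (Pool.Agent.W347.GP.meas d).1 (fun l => l.length = n ∧ IsP (0 :: l)) a
  convert h using 1
  ext w
  show a ≤ greedy d w n ↔ _
  rw [← lo_iff' hd]
  unfold Lo
  simp only [and_assoc]
  rfl

lemma ofReal_max0 (x : ℝ) : ENNReal.ofReal (max x 0) = ENNReal.ofReal x := by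
  rcases le_total x 0 with h | h
  · rw [max_eq_right h, ENNReal.ofReal_of_nonpos h, ENNReal.ofReal_zero]
  · rw [max_eq_left h]

lemma supP_ge (w : V d → ℝ) (T : ℝ) {n : ℕ} {l : List (V d)} (h1 : l.length = n)
    (h2 : IsP (0 :: l)) :
    ENNReal.ofReal (wt w l - T * n) ≤ SupP (fun z : V d => ENNReal.ofReal (w z - T)) n := by
  have h3 : wt w l - T * n ≤ (l.map fun z => max (w z - T) 0).sum := by
    subst h1
    clear h2
    induction l with
    | nil => simp
    | cons x l ih =>
      have := le_max_left (w x - T) 0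
      simp only [wt_cons, List.length_cons, List.map_cons, List.sum_cons]
      push_cast
      linarith
  have h4 : ENNReal.ofReal ((l.map fun z => max (w z - T) 0).sum) ≤
      (l.map fun z => ENNReal.ofReal (w z - T)).sum := by
    clear h1 h2 h3
    induction l with
    | nil => simp
    | cons x l ih =>
      simp only [List.map_cons, List.sum_cons]
      refine ENNReal.ofReal_add_le.trans (add_le_add ?_ ih)
      rw [ofReal_max0]
  refine (ENNReal.ofReal_le_ofReal h3).trans (h4.trans ?_)
  unfold SupP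
  exact le_iSup (f := fun l : {l : List (V d) // l.length = n ∧ IsP (0 :: l)} =>
    (l.1.map fun z => ENNReal.ofReal (w z - T)).sum) ⟨l, h1, h2⟩

lemma supP_ge' (hd : 1 ≤ d) (w : V d → ℝ) (T : ℝ) (n : ℕ) :
    ENNReal.ofReal (greedy d w n - T * n) ≤ SupP (fun z : V d => ENNReal.ofReal (w z - T)) n := by
  obtain ⟨l, h1, h2, h3⟩ := (lo_iff' hd w n (greedy d w n)).mpr le_rfl
  refine (ENNReal.ofReal_le_ofReal ?_).trans (supP_ge w T h1 h2)
  linarith

/-- a pointwise bound used for the truncation -/
lemma trunc_bound {y M T K : ℝ} (hT : 0 ≤ T) (hK : 0 ≤ K) :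
    |y - M| ≤ min |y - M| (|M| + T + K) + max (y - T) 0 + max (-y - K) 0 := by
  have h1 := le_max_right (y - T) 0
  have h2 := le_max_right (-y - K) 0
  have h3 := le_max_left (y - T) 0
  have h4 := le_max_left (-y - K) 0
  rcases le_total |y - M| (|M| + T + K) with h | h
  · rw [min_eq_left h]; linarith
  · rw [min_eq_right h]
    have h5 := abs_sub y M
    have h6 := neg_abs_le M
    have h7 := le_abs_self M
    rcases le_total 0 y with hy | hy
    · rw [abs_of_nonneg hy] at h5; linarith
    · rw [abs_of_nonpos hy] at h5; linarith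

theorem l1_canon (hE : S_E2) (hP : S_POSE) (hLo : S_LOW1) (hd : 2 ≤ d) (ν : Measure ℝ)
    [IsProbabilityMeasure ν] (α : ℝ) (hα : 0 < α)
    (hmom : ∫⁻ x, ENNReal.ofReal ((max x 0) ^ d *
      (max (Real.log (max x 0)) 0) ^ ((d : ℝ) + α)) ∂ν < ⊤)
    (hneg : ∫⁻ t in Set.Ioi (0 : ℝ), ν (Set.Iio (-t)) ^ (2 * d) < ⊤) :
    (∀ n : ℕ, ∫⁻ w, ENNReal.ofReal |greedy d w n| ∂law ν d < ⊤) ∧
    ∃ M : ℝ, Tendsto (fun n : ℕ => ∫⁻ w, ENNReal.ofReal |greedy d w n / n - M| ∂law ν d)
      atTop (𝓝 0) := by
  have hd1 : 1 ≤ d := by omega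
  obtain ⟨K, Z, hK, hZm, hZi, hZ⟩ := hLo d hd ν hneg
  have hlow : ∀ᵐ w ∂law ν d, ∀ n : ℕ, ENNReal.ofReal (-(greedy d w n) - K * n) ≤ Z w := by
    filter_upwards [hZ, ae_lt_top hZm hZi.ne] with w hw hfin n
    have h1 := (lo_iff' hd1 _ _ _).mp (hw n)
    have h2 : -(greedy d w n) - K * n ≤ (Z w).toReal := by linarith
    exact (ENNReal.ofReal_le_ofReal h2).trans (by rw [ENNReal.ofReal_toReal hfin.ne])
  constructor
  · intro n
    rcases Nat.eq_zero_or_pos n with rfl | hn
    · have h0 : ∀ w : V d → ℝ, greedy d w 0 = 0 := by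
        intro w
        refine le_antisymm ?_ ?_
        · by_contra hc
          push Not at hc
          obtain ⟨a, ha1, ha2⟩ := exists_between hc
          obtain ⟨l, h1, h2, h3⟩ := (lo_iff' hd1 w 0 a).mpr ha2.le
          have : l = [] := List.length_eq_zero_iff.mp h1
          subst this; simp at h3; linarith
        · rw [← lo_iff' hd1]; exact ⟨[], rfl, by simp, by simp⟩
      simp [h0]
    obtain ⟨T, hT0, hT⟩ := hP d hd1 ν α hα hmom 1 one_pos
    have h1 := hT T le_rfl n hn
    have h2 : ∀ᵐ w ∂law ν d, ENNReal.ofReal |greedy d w n| ≤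
        ENNReal.ofReal ((T + K) * n) + SupP (fun z : V d => ENNReal.ofReal (w z - T)) n + Z w := by
      filter_upwards [hlow] with w hw
      have h3 := supP_ge' hd1 w T n
      have h4 := hw n
      have h5 : |greedy d w n| ≤ (T + K) * n + max (greedy d w n - T * n) 0 +
          max (-(greedy d w n) - K * n) 0 := by
        have hn' : (0 : ℝ) ≤ n := Nat.cast_nonneg n
        have a1 := le_max_right (greedy d w n - T * n) 0
        have a2 := le_max_right (-(greedy d w n) - K * n) 0
        have a3 := le_max_left (greedy d w n - T * n) 0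
        have a4 := le_max_left (-(greedy d w n) - K * n) 0
        have a5 := mul_nonneg hT0 hn'
        have a6 := mul_nonneg hK hn'
        rw [abs_le]
        constructor <;> linarith
      calc ENNReal.ofReal |greedy d w n| ≤ ENNReal.ofReal ((T + K) * n +
            max (greedy d w n - T * n) 0 + max (-(greedy d w n) - K * n) 0) :=
            ENNReal.ofReal_le_ofReal h5
        _ ≤ ENNReal.ofReal ((T + K) * n) + ENNReal.ofReal (max (greedy d w n - T * n) 0) +
            ENNReal.ofReal (max (-(greedy d w n) - K * n) 0) :=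
            ENNReal.ofReal_add_le.trans (add_le_add_left ENNReal.ofReal_add_le _)
        _ ≤ _ := by
            rw [ofReal_max0, ofReal_max0]
            exact add_le_add (add_le_add le_rfl h3) h4
    refine lt_of_le_of_lt (lintegral_mono_ae h2) ?_
    rw [lintegral_add_right _ hZm]
    refine ENNReal.add_lt_top.mpr ⟨?_, hZi⟩
    rw [lintegral_add_left measurable_const]
    refine ENNReal.add_lt_top.mpr ⟨?_, lt_of_le_of_lt h1 ENNReal.ofReal_lt_top⟩
    simp
  · obtain ⟨M, hM⟩ := hE d hd ν α hα hmom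
    refine ⟨M, ?_⟩
    rw [ENNReal.tendsto_nhds_zero]
    intro ε0 hε0
    -- a real epsilon
    obtain ⟨ε, hε, hεε⟩ : ∃ ε : ℝ, 0 < ε ∧ ENNReal.ofReal ε ≤ ε0 := by
      by_cases hε' : ε0 = ⊤
      · exact ⟨1, one_pos, by simp [hε']⟩
      · exact ⟨ε0.toReal, ENNReal.toReal_pos hε0.ne' hε', by rw [ENNReal.ofReal_toReal hε']⟩
    obtain ⟨T, hT0, hT⟩ := hP d hd1 ν α hα hmom (ε / 3) (by positivity)
    have hfm : ∀ n : ℕ, Measurable fun w : V d → ℝ => greedy d w n := measurable_greedy hd1
    -- dominated part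
    have hdom : Tendsto (fun n : ℕ => ∫⁻ w, ENNReal.ofReal (min |greedy d w n / n - M|
        (|M| + T + K)) ∂law ν d) atTop (𝓝 0) := by
      have h1 : Tendsto (fun n : ℕ => ∫⁻ w, ENNReal.ofReal (min |greedy d w n / n - M|
        (|M| + T + K)) ∂law ν d) atTop (𝓝 (∫⁻ w : V d → ℝ, 0 ∂law ν d)) := by
        refine tendsto_lintegral_of_dominated_convergence
          (fun _ => ENNReal.ofReal (|M| + T + K)) ?_ ?_ ?_ ?_
        · intro n
          have := hfm n
          fun_prop
        · intro n
          exact Eventually.of_forall fun w => ENNReal.ofReal_le_ofReal (min_le_right _ _)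
        · simp
        · filter_upwards [hM] with w hw
          have h2 := tendsto_of_lo hd1 hw.1 hw.2
          have h3 : Tendsto (fun n : ℕ => |greedy d w n / n - M|) atTop (𝓝 0) := by
            have h4 : Tendsto (fun n : ℕ => greedy d w n / n) atTop (𝓝 M) := h2
            have h5 := (h4.sub_const M).abs
            simpa using h5
          have h6 : Tendsto (fun n : ℕ => min |greedy d w n / n - M| (|M| + T + K)) atTop
              (𝓝 0) := by
            have h7 : 0 ≤ |M| + T + K := by positivity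
            have h8 := h3.min (tendsto_const_nhds (x := |M| + T + K))
            rwa [min_eq_left h7] at h8
          have h9 := ENNReal.tendsto_ofReal h6
          simpa using h9
      simpa using h1
    have hZn : Tendsto (fun n : ℕ => (∫⁻ w, Z w ∂law ν d) / n) atTop (𝓝 0) :=
      ENNReal.Tendsto.const_div ENNReal.tendsto_nat_nhds_top (Or.inr hZi.ne) |>.trans (by simp)
    have hε3 : (0 : ℝ≥0∞) < ENNReal.ofReal (ε / 3) := ENNReal.ofReal_pos.mpr (by positivity)
    filter_upwards [(ENNReal.tendsto_nhds_zero.mp hdom) _ hε3,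
      (ENNReal.tendsto_nhds_zero.mp hZn) _ hε3, eventually_ge_atTop 1] with n hn1 hn2 hn3
    have hn0 : (0 : ℝ) < n := by exact_mod_cast hn3
    have hpt : ∀ᵐ w ∂law ν d, ENNReal.ofReal |greedy d w n / n - M| ≤
        ENNReal.ofReal (min |greedy d w n / n - M| (|M| + T + K)) +
        (SupP (fun z : V d => ENNReal.ofReal (w z - T)) n) / n + Z w / n := by
      filter_upwards [hlow] with w hw
      have h3 := supP_ge' hd1 w T n
      have h4 := hw n
      have h5 := trunc_bound (y := greedy d w n / n) (M := M) hT0 hK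
      have h6 : ENNReal.ofReal (max (greedy d w n / n - T) 0) ≤
          (SupP (fun z : V d => ENNReal.ofReal (w z - T)) n) / n := by
        rw [ofReal_max0]
        have : greedy d w n / n - T = (greedy d w n - T * n) / n := by field_simp
        rw [this, ENNReal.ofReal_div_of_pos hn0, ENNReal.ofReal_natCast]
        exact ENNReal.div_le_div_right h3 _
      have h7 : ENNReal.ofReal (max (-(greedy d w n / n) - K) 0) ≤ Z w / n := by
        rw [ofReal_max0]
        have : -(greedy d w n / n) - K = (-(greedy d w n) - K * n) / n := by field_simp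
        rw [this, ENNReal.ofReal_div_of_pos hn0, ENNReal.ofReal_natCast]
        exact ENNReal.div_le_div_right h4 _
      refine (ENNReal.ofReal_le_ofReal h5).trans ?_
      refine ENNReal.ofReal_add_le.trans (add_le_add ?_ h7)
      exact ENNReal.ofReal_add_le.trans (add_le_add le_rfl h6)
    refine (lintegral_mono_ae hpt).trans ?_
    rw [lintegral_add_right _ (hZm.div_const _), lintegral_add_left (by
      have := hfm n
      fun_prop)]
    have e1 : ∫⁻ w, (SupP (fun z : V d => ENNReal.ofReal (w z - T)) n) / n ∂law ν d ≤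
        ENNReal.ofReal (ε / 3) := by
      simp only [div_eq_mul_inv]
      rw [lintegral_mul_const']
      · have h1 := hT T le_rfl n hn3
        calc (∫⁻ w, SupP (fun z : V d => ENNReal.ofReal (w z - T)) n ∂law ν d) * (n : ℝ≥0∞)⁻¹
            ≤ ENNReal.ofReal (ε / 3 * n) * (n : ℝ≥0∞)⁻¹ := by gcongr
          _ = ENNReal.ofReal (ε / 3) := by
              rw [ENNReal.ofReal_mul (by positivity), ENNReal.ofReal_natCast, mul_assoc,
                ENNReal.mul_inv_cancel (by positivity) (by simp), mul_one]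
      · simp; omega
    have e2 : ∫⁻ w, Z w / n ∂law ν d ≤ ENNReal.ofReal (ε / 3) := by
      simp only [div_eq_mul_inv] at hn2 ⊢
      rw [lintegral_mul_const _ hZm]
      simpa [div_eq_mul_inv] using hn2
    calc _ ≤ ENNReal.ofReal (ε / 3) + ENNReal.ofReal (ε / 3) + ENNReal.ofReal (ε / 3) :=
          add_le_add (add_le_add hn1 e1) e2
      _ = ENNReal.ofReal ε := by
          rw [← ENNReal.ofReal_add (by positivity) (by positivity),
            ← ENNReal.ofReal_add (by positivity) (by positivity)]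
          congr 1; ring
      _ ≤ ε0 := hεε

/-- transfer to an arbitrary probability space -/
theorem l1_general (hE : S_E2) (hP : S_POSE) (hLo : S_LOW1) (hd : 2 ≤ d)
    (Ω : Type) [MeasurableSpace Ω] (P : Measure Ω) [IsProbabilityMeasure P]
    (X : (Fin d → ℤ) → Ω → ℝ) (hX : ∀ v, Measurable (X v)) (hind : iIndepFun X P)
    (hid : ∀ v, IdentDistrib (X v) (X 0) P P)
    (hmom : ∃ α : ℝ, 0 < α ∧
        ∫⁻ ω, ENNReal.ofReal ((max (X 0 ω) 0) ^ d *
          (max (Real.log (max (X 0 ω) 0)) 0) ^ ((d : ℝ) + α)) ∂P < ⊤)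
    (hneg : ∫⁻ t in Set.Ioi (0 : ℝ), P {ω | X 0 ω < -t} ^ (2 * d) < ⊤) :
    (∀ n : ℕ, Integrable (fun ω => greedy d (fun v => X v ω) n) P) ∧
    ∃ M : ℝ, Tendsto (fun n : ℕ => ∫ ω, |greedy d (fun v => X v ω) n / n - M| ∂P)
      atTop (𝓝 0) := by
  obtain ⟨α, hα, hmom⟩ := hmom
  have hd1 : 1 ≤ d := by omega
  set ν : Measure ℝ := P.map (X 0) with hν
  have : IsProbabilityMeasure ν := Measure.isProbabilityMeasure_map (hX 0).aemeasurable
  have hlaw : P.map (fun ω v => X v ω) = law ν d := by
    rw [hind.map_fun_eq_infinitePi_map hX]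
    unfold law
    congr 1
    funext v
    exact (hid v).map_eq
  have hmom' : ∫⁻ x, ENNReal.ofReal ((max x 0) ^ d *
      (max (Real.log (max x 0)) 0) ^ ((d : ℝ) + α)) ∂ν < ⊤ := by
    have hm : Measurable fun x : ℝ => ENNReal.ofReal ((max x 0) ^ d *
      (max (Real.log (max x 0)) 0) ^ ((d : ℝ) + α)) := by fun_prop
    rw [hν, lintegral_map hm (hX 0)]
    exact hmom
  have hneg' : ∫⁻ t in Set.Ioi (0 : ℝ), ν (Set.Iio (-t)) ^ (2 * d) < ⊤ := by
    have h1 : ∀ t : ℝ, ν (Set.Iio (-t)) = P {ω | X 0 ω < -t} := by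
      intro t
      rw [hν, Measure.map_apply (hX 0) measurableSet_Iio]; rfl
    simp_rw [h1]; exact hneg
  obtain ⟨h1, M, hM⟩ := l1_canon hE hP hLo hd ν α hα hmom' hneg'
  have hm : Measurable fun (ω : Ω) (v : V d) => X v ω := measurable_pi_iff.mpr hX
  have hg : ∀ n, Measurable fun w : V d → ℝ => greedy d w n := measurable_greedy hd1
  have hgX : ∀ n, Measurable fun ω => greedy d (fun v => X v ω) n := fun n => (hg n).comp hm
  have hint : ∀ n : ℕ, Integrable (fun ω => greedy d (fun v => X v ω) n) P := by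
    intro n
    refine ⟨(hgX n).aestronglyMeasurable, ?_⟩
    have h2 := h1 n
    rw [← hlaw, lintegral_map (by have := hg n; fun_prop) hm] at h2
    rw [hasFiniteIntegral_iff_norm]
    exact h2
  refine ⟨hint, M, ?_⟩
  have h3 : ∀ n : ℕ, ∫ ω, |greedy d (fun v => X v ω) n / n - M| ∂P =
      (∫⁻ w, ENNReal.ofReal |greedy d w n / n - M| ∂law ν d).toReal := by
    intro n
    rw [← hlaw, lintegral_map (by have := hg n; fun_prop) hm,
      integral_eq_lintegral_of_nonneg_ae (Eventually.of_forall fun ω => abs_nonneg _)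
        (continuous_abs.measurable.comp
          (((hgX n).div_const (n : ℝ)).sub_const M)).aestronglyMeasurable]
  simp_rw [h3]
  have h4 := (ENNReal.tendsto_toReal ENNReal.zero_ne_top).comp hM
  simpa [Function.comp_def] using h4

end Pool.Agent.W844.GP
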