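import Pool.Agent.W844.GP.Main
import Pool.Agent.W844.GP.D1
import Pool.Agent.W844.GP.Esc
import Pool.Agent.W45.GQ.GE
import Pool.Agent.W701.GQ.Pose
import Pool.Agent.W18.GQ.Cond
import Pool.Agent.W18.GQ.DOne
import Pool.Agent.W462.GQ.Low

set_option autoImplicit false

namespace Pool.Agent.W844.GP

theorem poseT : S_POSE := Pool.Agent.W701.GQ.pose (Pool.Agent.W45.GQ.ge Pool.Agent.W346.GP.gg)
theorem low1T : S_LOW1 :=
  Pool.Agent.W462.GQ.low esc Pool.Agent.W18.GQ.T_COND tailT Pool.Agent.W347.GP.meas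
theorem d1T : S_D1 := Pool.Agent.W18.GQ.T_D1

end Pool.Agent.W844.GP
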